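import Mathlib

/-!
# A weak form of the Poincare-Birkhoff-Witt theorem relative to a subalgebra

For a vector space `V` with a Lie bracket `β`, a subspace `M` closed under `β` and `x ∉ M` we
construct two Lie algebra homomorphisms from `V` to an algebra of endomorphisms which agree on `M`
but differ at `x`.
-/

namespace Pool.Agent.PoissonHopf

open Module

universe u

section Words

variable {I : Type*} [LinearOrder I]

/-- The number of inversions of a word. -/
def inv : List I → ℕ
  | [] => 0
  | a :: l => l.countP (fun b => decide (b < a)) + inv l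

theorem inv_swap_lt (u v : List I) {i j : I} (h : j < i) :
    inv (u ++ j :: i :: v) < inv (u ++ i :: j :: v) := by
  induction u with
  | nil =>
    simp only [List.nil_append, inv]
    have h1 : ¬ i < j := not_lt.mpr h.le
    simp [h, h1]
    omega
  | cons a u ih =>
    simp only [List.cons_append, inv]
    have : List.countP (fun b => decide (b < a)) (u ++ j :: i :: v) =
        List.countP (fun b => decide (b < a)) (u ++ i :: j :: v) := by
      simp only [List.countP_append, List.countP_cons]
      omega
    omega

end Words

section Functional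

variable {k I : Type*} [Field k] [LinearOrder I]

open Classical in
/-- The functional on words obtained by straightening with structure constants `c`, vanishing on
words ending in `J`, and equal to `g` on sorted words. -/
noncomputable def straight (c : I → I → I →₀ k) (J : Set I) (g : List I → k) (w : List I) : k :=
  if ∃ u : List I, ∃ j ∈ J, w = u ++ [j] then 0
  else if h : ∃ p : List I × I × I × List I,
      w = p.1 ++ p.2.1 :: p.2.2.1 :: p.2.2.2 ∧ p.2.2.1 < p.2.1 then
    straight c J g (h.choose.1 ++ h.choose.2.2.1 :: h.choose.2.1 :: h.choose.2.2.2) +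
      (c h.choose.2.1 h.choose.2.2.1).sum
        fun l a => a * straight c J g (h.choose.1 ++ l :: h.choose.2.2.2)
  else g w
termination_by (w.length, inv w)
decreasing_by
  · have h1 := h.choose_spec.1
    have h2 := h.choose_spec.2
    have e : w.length = (h.choose.1 ++ h.choose.2.2.1 :: h.choose.2.1 :: h.choose.2.2.2).length := by
      conv_lhs => rw [h1]
      simp
    have e2 := inv_swap_lt h.choose.1 h.choose.2.2.2 h2
    rw [← h1] at e2
    rw [← e]
    exact Prod.Lex.right _ e2
  · have h1 := h.choose_spec.1
    apply Prod.Lex.left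
    conv_rhs => rw [h1]
    simp


theorem straight_mem (c : I → I → I →₀ k) (J : Set I) (g : List I → k) (u : List I) {j : I}
    (hj : j ∈ J) : straight c J g (u ++ [j]) = 0 := by
  rw [straight, if_pos ⟨u, j, hj, rfl⟩]

theorem straight_single (c : I → I → I →₀ k) (J : Set I) (g : List I → k) {j : I}
    (hj : j ∉ J) : straight c J g [j] = g [j] := by
  rw [straight, if_neg, dif_neg]
  · rintro ⟨⟨u, a, b, v⟩, h, -⟩
    have := congrArg List.length h
    simp at this
    omega
  · rintro ⟨u, a, ha, h⟩
    cases u with
    | nil => simp at h; exact hj (h ▸ ha)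
    | cons x u => simp at h

end Functional

section Diamond

variable {k I V : Type*} [Field k] [LinearOrder I] [AddCommGroup V] [Module k V]
  (b : Basis I k V) (β : V →ₗ[k] V →ₗ[k] V) (F : List I → k)

/-- Linear extension of `F` in one letter. -/
noncomputable def ext1 (u v : List I) : V →ₗ[k] k := b.constr k fun l => F (u ++ l :: v)

omit [LinearOrder I] in
@[simp] theorem ext1_basis (u v : List I) (l : I) : ext1 b F u v (b l) = F (u ++ l :: v) := by
  simp [ext1]

/-- Linear extension of `F` in two letters. -/
noncomputable def ext2 (u m v : List I) : V →ₗ[k] V →ₗ[k] k :=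
  b.constr k fun l => b.constr k fun n => F (u ++ l :: (m ++ n :: v))

omit [LinearOrder I] in
@[simp] theorem ext2_basis (u m v : List I) (l n : I) :
    ext2 b F u m v (b l) (b n) = F (u ++ l :: (m ++ n :: v)) := by
  simp [ext2]

/-- `w` is good when every descent of `w` can be used to straighten `w`. -/
def Good (w : List I) : Prop :=
  ∀ (u : List I) (i j : I) (v : List I), w = u ++ i :: j :: v → j < i →
    F w = F (u ++ j :: i :: v) + ext1 b F u v (β (b i) (b j))

variable (hself : ∀ a, β a a = 0)

include hself in
theorem antisymm' (x y : V) : β x y = - β y x := by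
  have h := hself (x + y)
  simp only [map_add, LinearMap.add_apply, hself, zero_add, add_zero] at h
  exact eq_neg_of_add_eq_zero_right h

include hself in
theorem rel_of_good {u v : List I} {i j : I} (h1 : Good b β F (u ++ i :: j :: v))
    (h2 : Good b β F (u ++ j :: i :: v)) :
    F (u ++ i :: j :: v) = F (u ++ j :: i :: v) + ext1 b F u v (β (b i) (b j)) := by
  rcases lt_trichotomy i j with h | h | h
  · have := h2 u j i v rfl h
    rw [this, antisymm' β hself (b i) (b j)]
    simp
  · subst h
    simp [hself]
  · exact h1 u i j v rfl h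

include hself in
theorem ext2_sub {u v : List I} (H : ∀ w : List I, w.length = u.length + v.length + 2 →
    Good b β F w) (x y : V) :
    ext2 b F u [] v x y - ext2 b F u [] v y x = ext1 b F u v (β x y) := by
  have : (ext2 b F u [] v) - (ext2 b F u [] v).flip = β.compr₂ (ext1 b F u v) := by
    refine b.ext fun i => b.ext fun j => ?_
    have := rel_of_good b β F hself (u := u) (v := v) (i := i) (j := j)
      (H _ (by simp; omega)) (H _ (by simp; omega))
    simp [this]
  have := congrArg (fun f => f x y) this
  simpa using this

variable (hjac : ∀ a c d, β a (β c d) + β c (β d a) + β d (β a c) = 0)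

include hself hjac in
theorem diamond_overlap {u v : List I} {a c d : I} (hac : c < a) (hcd : d < c)
    (H1 : ∀ w : List I, w.length < (u ++ a :: c :: d :: v).length → Good b β F w)
    (H2 : ∀ w : List I, w.length = (u ++ a :: c :: d :: v).length →
      inv w < inv (u ++ a :: c :: d :: v) → Good b β F w) :
    F (u ++ c :: a :: d :: v) + ext1 b F u (d :: v) (β (b a) (b c)) =
      F (u ++ a :: d :: c :: v) + ext1 b F (u ++ [a]) v (β (b c) (b d)) := by
  have i1 : inv (u ++ c :: a :: d :: v) < inv (u ++ a :: c :: d :: v) := inv_swap_lt u _ hac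
  have i2 : inv (u ++ a :: d :: c :: v) < inv (u ++ a :: c :: d :: v) := by
    have := inv_swap_lt (u ++ [a]) v hcd
    simpa using this
  have hda : d < a := hcd.trans hac
  have i3 : inv (u ++ c :: d :: a :: v) < inv (u ++ c :: a :: d :: v) := by
    have := inv_swap_lt (u ++ [c]) v hda
    simpa using this
  have i4 : inv (u ++ d :: a :: c :: v) < inv (u ++ a :: d :: c :: v) := inv_swap_lt u _ hda
  have e1 := H2 (u ++ c :: a :: d :: v) (by simp) i1 (u ++ [c]) a d v (by simp) hda
  have e2 := H2 (u ++ c :: d :: a :: v) (by simp) (i3.trans i1) u c d (a :: v) rfl hcd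
  have e3 := H2 (u ++ a :: d :: c :: v) (by simp) i2 u a d (c :: v) rfl hda
  have e4 := H2 (u ++ d :: a :: c :: v) (by simp) (i4.trans i2) (u ++ [d]) a c v (by simp) hac
  have H3 : ∀ w : List I, w.length = u.length + v.length + 2 → Good b β F w := fun w hw =>
    H1 w (by simp; omega)
  -- the three commutators
  have f1 : ∀ x : V, ext1 b F (u ++ [c]) v x - ext1 b F u (c :: v) x =
      ext1 b F u v (β (b c) x) := by
    intro x
    rw [← ext2_sub b β F hself H3]
    congr 1
    · have : ext1 b F (u ++ [c]) v = ext2 b F u [] v (b c) := by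
        refine b.ext fun i => by simp
      rw [this]
    · have : ext1 b F u (c :: v) = (ext2 b F u [] v).flip (b c) := by
        refine b.ext fun i => by simp
      rw [this]; rfl
  have f2 : ∀ x : V, ext1 b F (u ++ [a]) v x - ext1 b F u (a :: v) x =
      ext1 b F u v (β (b a) x) := by
    intro x
    rw [← ext2_sub b β F hself H3]
    congr 1
    · have : ext1 b F (u ++ [a]) v = ext2 b F u [] v (b a) := by
        refine b.ext fun i => by simp
      rw [this]
    · have : ext1 b F u (a :: v) = (ext2 b F u [] v).flip (b a) := by
        refine b.ext fun i => by simp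
      rw [this]; rfl
  have f3 : ∀ x : V, ext1 b F (u ++ [d]) v x - ext1 b F u (d :: v) x =
      ext1 b F u v (β (b d) x) := by
    intro x
    rw [← ext2_sub b β F hself H3]
    congr 1
    · have : ext1 b F (u ++ [d]) v = ext2 b F u [] v (b d) := by
        refine b.ext fun i => by simp
      rw [this]
    · have : ext1 b F u (d :: v) = (ext2 b F u [] v).flip (b d) := by
        refine b.ext fun i => by simp
      rw [this]; rfl
  have j1 := congrArg (ext1 b F u v) (hjac (b a) (b c) (b d))
  simp only [map_add, map_zero] at j1
  have g1 := f1 (β (b a) (b d))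
  have g2 := f2 (β (b c) (b d))
  have g3 := f3 (β (b a) (b c))
  rw [antisymm' β hself (b a) (b d), map_neg, map_neg, map_neg, map_neg] at g1
  simp only [List.append_assoc, List.cons_append, List.nil_append] at e1 e4
  rw [antisymm' β hself (b a) (b d), map_neg] at e1 e3
  rw [e1, e2, e3, e4]
  linear_combination g1 - j1 - g2 - g3


omit [LinearOrder I] in
theorem ext2_left (u m v : List I) (l : I) :
    ext2 b F u m v (b l) = ext1 b F (u ++ l :: m) v := b.ext fun i => by simp

omit [LinearOrder I] in
theorem ext2_right (u m v : List I) (l : I) :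
    (ext2 b F u m v).flip (b l) = ext1 b F u (m ++ l :: v) := b.ext fun i => by simp

theorem diamond_disjoint {u m v : List I} {a c d e : I} (hac : c < a) (hde : e < d)
    (H1 : ∀ w : List I, w.length < (u ++ a :: c :: (m ++ d :: e :: v)).length → Good b β F w)
    (H2 : ∀ w : List I, w.length = (u ++ a :: c :: (m ++ d :: e :: v)).length →
      inv w < inv (u ++ a :: c :: (m ++ d :: e :: v)) → Good b β F w) :
    F (u ++ c :: a :: (m ++ d :: e :: v)) + ext1 b F u (m ++ d :: e :: v) (β (b a) (b c)) =
      F (u ++ a :: c :: (m ++ e :: d :: v)) +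
        ext1 b F (u ++ a :: c :: m) v (β (b d) (b e)) := by
  have i1 : inv (u ++ c :: a :: (m ++ d :: e :: v)) <
      inv (u ++ a :: c :: (m ++ d :: e :: v)) := inv_swap_lt u _ hac
  have i2 : inv (u ++ a :: c :: (m ++ e :: d :: v)) <
      inv (u ++ a :: c :: (m ++ d :: e :: v)) := by
    have := inv_swap_lt (u ++ a :: c :: m) v hde
    simpa using this
  have e1 := H2 _ (by simp) i1 (u ++ c :: a :: m) d e v (by simp) hde
  have e2 := H2 _ (by simp) i2 u a c (m ++ e :: d :: v) rfl hac
  simp only [List.append_assoc, List.cons_append] at e1 e2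
  rw [e1, e2]
  -- first difference
  have f1 : ∀ x : V, ext1 b F (u ++ a :: c :: m) v x - ext1 b F (u ++ c :: a :: m) v x =
      ext2 b F u m v (β (b a) (b c)) x := by
    intro x
    have : ext1 b F (u ++ a :: c :: m) v - ext1 b F (u ++ c :: a :: m) v =
        ext2 b F u m v (β (b a) (b c)) := by
      refine b.ext fun i => ?_
      have h := H1 (u ++ a :: c :: (m ++ i :: v)) (by simp) u a c (m ++ i :: v) rfl hac
      have e0 : ext2 b F u m v (β (b a) (b c)) (b i) =
          (ext2 b F u m v).flip (b i) (β (b a) (b c)) := rfl
      rw [e0, ext2_right]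
      simp [h]
    exact congrArg (fun f => f x) this
  have f2 : ∀ x : V, ext1 b F u (m ++ d :: e :: v) x - ext1 b F u (m ++ e :: d :: v) x =
      ext2 b F u m v x (β (b d) (b e)) := by
    intro x
    have : ext1 b F u (m ++ d :: e :: v) - ext1 b F u (m ++ e :: d :: v) =
        (ext2 b F u m v).flip (β (b d) (b e)) := by
      refine b.ext fun i => ?_
      have h := H1 (u ++ i :: (m ++ d :: e :: v)) (by simp) (u ++ i :: m) d e v (by simp) hde
      have e0 : (ext2 b F u m v).flip (β (b d) (b e)) (b i) =
          ext2 b F u m v (b i) (β (b d) (b e)) := rfl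
      rw [e0, ext2_left]
      simp [h]
    exact congrArg (fun f => f x) this
  have g1 := f1 (β (b d) (b e))
  have g2 := f2 (β (b a) (b c))
  linear_combination g2 - g1

/-- Any two descents give the same straightening. -/
theorem diamond_aux (hself : ∀ a, β a a = 0)
    (hjac : ∀ a c d, β a (β c d) + β c (β d a) + β d (β a c) = 0) {w : List I}
    (H1 : ∀ w' : List I, w'.length < w.length → Good b β F w')
    (H2 : ∀ w' : List I, w'.length = w.length → inv w' < inv w → Good b β F w')
    {u v u' v' : List I} {i j i' j' : I} (hw : w = u ++ i :: j :: v) (hij : j < i)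
    (hw' : w = u' ++ i' :: j' :: v') (hij' : j' < i') :
    F (u ++ j :: i :: v) + ext1 b F u v (β (b i) (b j)) =
      F (u' ++ j' :: i' :: v') + ext1 b F u' v' (β (b i') (b j')) := by
  have key : ∀ {u v u' v' : List I} {i j i' j' : I} (hw : w = u ++ i :: j :: v) (hij : j < i)
      (hw' : w = u' ++ i' :: j' :: v') (hij' : j' < i') (t : List I), u' = u ++ t →
      i :: j :: v = t ++ i' :: j' :: v' →
      F (u ++ j :: i :: v) + ext1 b F u v (β (b i) (b j)) =
        F (u' ++ j' :: i' :: v') + ext1 b F u' v' (β (b i') (b j')) := by
    intro u v u' v' i j i' j' hw hij hw' hij' t ht htv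
    match t, ht, htv with
    | [], ht, htv =>
      simp only [List.nil_append, List.cons.injEq] at htv
      obtain ⟨rfl, rfl, rfl⟩ := htv
      rw [ht]; simp
    | [t1], ht, htv =>
      simp only [List.cons_append, List.nil_append, List.cons.injEq] at htv
      obtain ⟨rfl, rfl, rfl⟩ := htv
      subst hw
      subst ht
      have := diamond_overlap b β F hself hjac hij hij' H1 H2
      simpa using this
    | t1 :: t2 :: m, ht, htv =>
      simp only [List.cons_append, List.cons.injEq] at htv
      obtain ⟨rfl, rfl, rfl⟩ := htv
      subst hw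
      subst ht
      have := diamond_disjoint b β F hij hij' H1 H2
      simpa using this
  rcases List.append_eq_append_iff.mp (hw.symm.trans hw') with ⟨t, h1, h2⟩ | ⟨t, h1, h2⟩
  · exact key hw hij hw' hij' t h1 h2
  · exact (key hw' hij' hw hij t h1 h2).symm

end Diamond

section Main

variable {k I V : Type*} [Field k] [LinearOrder I] [AddCommGroup V] [Module k V]
  (b : Basis I k V) (β : V →ₗ[k] V →ₗ[k] V)

theorem straight_good (hself : ∀ a, β a a = 0)
    (hjac : ∀ a c d, β a (β c d) + β c (β d a) + β d (β a c) = 0)
    (J : Set I) (hup : ∀ i ∈ J, ∀ j, i < j → j ∈ J)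
    (hJ : ∀ i ∈ J, ∀ j ∈ J, ∀ l ∉ J, b.repr (β (b i) (b j)) l = 0) (g : List I → k)
    (w : List I) : Good b β (straight (fun i j => b.repr (β (b i) (b j))) J g) w := by
  set F := straight (fun i j => b.repr (β (b i) (b j))) J g with hF
  have main : ∀ n m : ℕ, ∀ w : List I, w.length = n → inv w = m → Good b β F w := by
    intro n
    induction n using Nat.strong_induction_on with
    | _ n ihn =>
    intro m
    induction m using Nat.strong_induction_on with
    | _ m ihm =>
    intro w hn hm
    have H1 : ∀ w' : List I, w'.length < w.length → Good b β F w' := fun w' h =>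
      ihn w'.length (hn ▸ h) _ w' rfl rfl
    have H2 : ∀ w' : List I, w'.length = w.length → inv w' < inv w → Good b β F w' :=
      fun w' h h' => ihm (inv w') (hm ▸ h') w' (h.trans hn) rfl
    intro u i j v hw hij
    by_cases hend : ∃ u : List I, ∃ j ∈ J, w = u ++ [j]
    · obtain ⟨u0, j0, hj0, hw0⟩ := hend
      have hFw : F w = 0 := by rw [hw0]; exact straight_mem _ _ _ _ hj0
      rw [hFw]
      rcases List.eq_nil_or_concat v with hv | ⟨v', y, hv⟩
      · subst hv
        have hj : j ∈ J := by
          have : w = (u ++ [i]) ++ [j] := by simp [hw]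
          rw [this] at hw0
          have := List.append_inj_right' hw0 rfl
          simp at this
          exact this ▸ hj0
        have hi : i ∈ J := hup j hj i hij
        have e1 : F (u ++ [j, i]) = 0 := by
          have := straight_mem (fun i j => b.repr (β (b i) (b j))) J g (u ++ [j]) hi
          simpa using this
        have e2 : ext1 b F u [] (β (b i) (b j)) = 0 := by
          rw [ext1, Basis.constr_apply]
          refine Finset.sum_eq_zero fun l _ => ?_
          by_cases hl : l ∈ J
          · have := straight_mem (fun i j => b.repr (β (b i) (b j))) J g u hl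
            rw [← hF] at this
            simp [this]
          · simp [hJ i hi j hj l hl]
        rw [e1, e2]; simp
      · have hy : y ∈ J := by
          have : w = (u ++ i :: j :: v') ++ [y] := by rw [hw, hv]; simp
          rw [this] at hw0
          have := List.append_inj_right' hw0 rfl
          simp at this
          exact this ▸ hj0
        have e1 : F (u ++ j :: i :: v) = 0 := by
          have := straight_mem (fun i j => b.repr (β (b i) (b j))) J g (u ++ j :: i :: v') hy
          rw [hv]; simpa using this
        have e2 : ext1 b F u v = 0 := by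
          refine b.ext fun l => ?_
          have := straight_mem (fun i j => b.repr (β (b i) (b j))) J g (u ++ l :: v') hy
          rw [ext1_basis, hv]
          simpa using this
        rw [e1, e2]; simp
    · have hex : ∃ p : List I × I × I × List I,
          w = p.1 ++ p.2.1 :: p.2.2.1 :: p.2.2.2 ∧ p.2.2.1 < p.2.1 := ⟨(u, i, j, v), hw, hij⟩
      have e1 : F w = F (hex.choose.1 ++ hex.choose.2.2.1 :: hex.choose.2.1 :: hex.choose.2.2.2) +
          ext1 b F hex.choose.1 hex.choose.2.2.2
            (β (b hex.choose.2.1) (b hex.choose.2.2.1)) := by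
        conv_lhs => rw [hF, straight, if_neg hend, dif_pos hex]
        rw [ext1, Basis.constr_apply]
        rfl
      rw [e1]
      exact diamond_aux b β F hself hjac H1 H2 hex.choose_spec.1 hex.choose_spec.2 hw hij
  exact main _ _ w rfl rfl


/-- Right translation operators on functions on words. -/
noncomputable def transl : V →ₗ[k] Module.End k (List I → k) :=
  b.constr k fun l => LinearMap.funLeft k k fun w => w ++ [l]

omit [LinearOrder I] in
theorem transl_basis (l : I) (G : List I → k) (w : List I) :
    transl b (b l) G w = G (w ++ [l]) := by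
  simp [transl, LinearMap.funLeft_apply]

omit [LinearOrder I] in
theorem transl_apply (y : V) (G : List I → k) (w : List I) :
    transl b y G w = ext1 b G w [] y := by
  have : (LinearMap.proj w ∘ₗ LinearMap.applyₗ G) ∘ₗ transl b = ext1 b G w [] := by
    refine b.ext fun l => ?_
    simp [transl_basis]
  exact congrArg (fun f => f y) this

/-- Functions on words compatible with the bracket. -/
noncomputable def Compat : Submodule k (List I → k) where
  carrier := {G | ∀ u i j v, G (u ++ i :: j :: v) - G (u ++ j :: i :: v) =
    (b.repr (β (b i) (b j))).sum fun l a => a * G (u ++ l :: v)}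
  add_mem' := by
    intro G G' h h' u i j v
    simp only [Pi.add_apply, mul_add, Finsupp.sum_add]
    rw [← h, ← h']; ring
  zero_mem' := by intro u i j v; simp
  smul_mem' := by
    intro c G h u i j v
    have : ∀ (l : I) (a : k), a * (c • G) (u ++ l :: v) = c * (a * G (u ++ l :: v)) := by
      intro l a; simp; ring
    simp only [this]
    rw [← Finsupp.mul_sum, ← h]
    simp; ring

omit [LinearOrder I] in
theorem transl_mem {G : List I → k} (hG : G ∈ Compat b β) (y : V) :
    transl b y G ∈ Compat b β := by
  have h : ∀ l, transl b (b l) G ∈ Compat b β := by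
    intro l u i j v
    simp only [transl_basis]
    have := hG u i j (v ++ [l])
    simpa using this
  rw [← b.linearCombination_repr y, Finsupp.linearCombination_apply, Finsupp.sum, map_sum,
    LinearMap.sum_apply]
  refine Submodule.sum_mem _ fun l _ => ?_
  rw [map_smul, LinearMap.smul_apply]
  exact Submodule.smul_mem _ _ (h l)

/-- The representation on compatible functions. -/
noncomputable def rho : V →ₗ[k] Module.End k (Compat b β) where
  toFun y := (transl b y).restrict fun G hG => transl_mem b β hG y
  map_add' x y := by ext G w; simp [LinearMap.restrict_apply]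
  map_smul' c y := by ext G w; simp [LinearMap.restrict_apply]

omit [LinearOrder I] in
theorem rho_coe (y : V) (G : Compat b β) : (rho b β y G : List I → k) = transl b y G := rfl

omit [LinearOrder I] in
theorem rho_bracket (x y : V) :
    rho b β (β x y) = rho b β x * rho b β y - rho b β y * rho b β x := by
  let T : V →ₗ[k] V →ₗ[k] Module.End k (Compat b β) :=
    (LinearMap.mul k (Module.End k (Compat b β))).compl₁₂ (rho b β) (rho b β)
  have : β.compr₂ (rho b β) + T.flip = T := by
    refine b.ext fun i => b.ext fun j => ?_
    ext G w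
    have := G.2 w i j []
    simp only [LinearMap.compr₂_apply, LinearMap.add_apply, LinearMap.compl₁₂_apply, T,
      LinearMap.mul_apply', LinearMap.flip_apply, Module.End.mul_apply, rho_coe,
      Submodule.coe_add, Pi.add_apply, transl_basis]
    rw [transl_apply, ext1, Basis.constr_apply]
    simp only [List.append_assoc, List.cons_append, List.nil_append, smul_eq_mul]
    rw [← this]; ring
  have h2 : rho b β (β x y) + rho b β y * rho b β x = rho b β x * rho b β y :=
    congrArg (fun f : V →ₗ[k] V →ₗ[k] Module.End k (Compat b β) => f x y) this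
  refine LinearMap.ext fun G => ?_
  have h3 : rho b β (β x y) G + rho b β y (rho b β x G) = rho b β x (rho b β y G) :=
    congrArg (fun f : Module.End k (Compat b β) => f G) h2
  exact eq_sub_of_add_eq h3

end Main

/-- The weak relative Poincare-Birkhoff-Witt theorem: a Lie subalgebra `M` not containing `x`
can be separated from `x` by two homomorphisms to an endomorphism Lie algebra. -/
theorem exists_pair {k V : Type u} [Field k] [AddCommGroup V] [Module k V]
    (β : V →ₗ[k] V →ₗ[k] V) (hself : ∀ a, β a a = 0)
    (hjac : ∀ a c d, β a (β c d) + β c (β d a) + β d (β a c) = 0)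
    (M : Submodule k V) (hM : ∀ a ∈ M, ∀ c ∈ M, β a c ∈ M) (x : V) (hx : x ∉ M) :
    ∃ (E : Type u) (_ : AddCommGroup E) (_ : Module k E) (φ ψ : V →ₗ[k] Module.End k E),
      (∀ a c, φ (β a c) = φ a * φ c - φ c * φ a) ∧
      (∀ a c, ψ (β a c) = ψ a * ψ c - ψ c * ψ a) ∧
      (∀ m ∈ M, φ m = ψ m) ∧ φ x ≠ ψ x := by
  classical
  obtain ⟨C, hC⟩ := M.exists_isCompl
  let ιC := Basis.ofVectorSpaceIndex k C
  let ιM := Basis.ofVectorSpaceIndex k M
  let : LinearOrder ιC := linearOrderOfSTO WellOrderingRel
  let : LinearOrder ιM := linearOrderOfSTO WellOrderingRel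
  let b : Basis (ιC ⊕ₗ ιM) k V :=
    (((Basis.ofVectorSpace k C).prod (Basis.ofVectorSpace k M)).map
      (Submodule.prodEquivOfIsCompl C M hC.symm)).reindex toLex
  let J : Set (ιC ⊕ₗ ιM) := Set.range fun m : ιM => toLex (Sum.inr m)
  have hcoord : ∀ (y : V) (c : ιC), b.repr y (toLex (Sum.inl c)) =
      (Basis.ofVectorSpace k C).repr
        ((Submodule.prodEquivOfIsCompl C M hC.symm).symm y).1 c := by
    intro y c
    simp [b, Basis.prod_repr_inl]
  have hJc : ∀ l, l ∉ J → ∃ c : ιC, l = toLex (Sum.inl c) := by
    intro l hl
    rcases h : ofLex l with c | m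
    · exact ⟨c, by rw [← h]; rfl⟩
    · exact absurd ⟨m, by change toLex (Sum.inr m) = l; rw [← h]; rfl⟩ hl
  have hMz : ∀ y ∈ M, ∀ l ∉ J, b.repr y l = 0 := by
    intro y hy l hl
    obtain ⟨c, rfl⟩ := hJc l hl
    rw [hcoord, (Submodule.prodEquivOfIsCompl_symm_apply_fst_eq_zero _ _ hC.symm).2 hy]
    simp
  have hJM : ∀ j ∈ J, b j ∈ M := by
    rintro j ⟨m, rfl⟩
    simp [b]
  obtain ⟨c0, hc0⟩ : ∃ c : ιC, b.repr x (toLex (Sum.inl c)) ≠ 0 := by
    by_contra hcon
    push Not at hcon
    apply hx
    rw [← Submodule.prodEquivOfIsCompl_symm_apply_fst_eq_zero _ _ hC.symm]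
    apply (Basis.ofVectorSpace k C).repr.injective
    ext c
    rw [← hcoord, hcon]; simp
  let g : List (ιC ⊕ₗ ιM) → k := fun w => if w = [toLex (Sum.inl c0)] then 1 else 0
  let F := straight (fun i j => b.repr (β (b i) (b j))) J g
  have hgood : ∀ w, Good b β F w := straight_good b β hself hjac J
    (by
      rintro i ⟨m, rfl⟩ j hj
      by_contra hjJ
      obtain ⟨c, rfl⟩ := hJc j hjJ
      exact absurd hj (by simp))
    (fun i hi j hj l hl => hMz _ (hM _ (hJM i hi) _ (hJM j hj)) l hl) g
  have hF : F ∈ Compat b β := by
    intro u i j v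
    have := rel_of_good b β F hself (hgood (u ++ i :: j :: v)) (hgood (u ++ j :: i :: v))
    rw [this, ext1, Basis.constr_apply]
    simp
  let F0 : Compat b β := ⟨F, hF⟩
  have hk : ∀ m ∈ M, rho b β m F0 = 0 := by
    intro m hm
    ext w
    rw [rho_coe, transl_apply, ext1, Basis.constr_apply]
    refine Finset.sum_eq_zero fun l _ => ?_
    by_cases hl : l ∈ J
    · have : F0.1 (w ++ [l]) = 0 := straight_mem _ _ _ _ hl
      simp [this]
    · simp [hMz m hm l hl]
  have hx0 : rho b β x F0 ≠ 0 := by
    intro h
    have h1 : (rho b β x F0 : List (ιC ⊕ₗ ιM) → k) [] = 0 := by rw [h]; rfl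
    rw [rho_coe, transl_apply, ext1, Basis.constr_apply, Finsupp.sum,
      Finset.sum_eq_single (toLex (Sum.inl c0))] at h1
    · have : F0.1 [toLex (Sum.inl c0)] = 1 := by
        have h2 : F0.1 [toLex (Sum.inl c0)] = g [toLex (Sum.inl c0)] := by
          apply straight_single
          rintro ⟨m, hm⟩
          simp at hm
        rw [h2]; simp [g]
      simp only [List.nil_append, this, smul_eq_mul, mul_one] at h1
      exact hc0 h1
    · intro l _ hl
      by_cases hlJ : l ∈ J
      · have : F0.1 ([] ++ [l]) = 0 := straight_mem _ _ _ _ hlJ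
        simp only [List.nil_append] at this
        simp [this]
      · have : F0.1 [l] = g [l] := straight_single _ _ _ hlJ
        simp only [List.nil_append, this, g]
        simp [hl]
    · intro h2
      simp only [Finsupp.mem_support_iff, not_not] at h2
      simp [h2]
  refine ⟨Compat b β × k, inferInstance, inferInstance,
    { toFun := fun y => LinearMap.inl k _ k ∘ₗ rho b β y ∘ₗ LinearMap.fst k _ k
      map_add' := ?_, map_smul' := ?_ },
    { toFun := fun y => LinearMap.inl k _ k ∘ₗ (rho b β y ∘ₗ LinearMap.fst k _ k +
        rho b β y ∘ₗ LinearMap.toSpanSingleton k _ F0 ∘ₗ LinearMap.snd k _ k)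
      map_add' := ?_, map_smul' := ?_ }, ?_, ?_, ?_, ?_⟩
  · intro y z; ext <;> simp
  · intro c y; ext <;> simp
  · intro y z; ext <;> simp
  · intro c y; ext <;> simp
  · intro y z; ext <;> simp [rho_bracket]
  · intro y z; ext <;> simp [rho_bracket]
  · intro m hm
    ext <;> simp [hk m hm]
  · intro h
    apply hx0
    have := congrArg (fun f : Module.End k (Compat b β × k) => (f (0, 1)).1) h
    simpa using this.symm

end Pool.Agent.PoissonHopf
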