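import Pool.Agent.Lib.MP_c108b5_al.Pushout

/-!
# The antipode of a Poisson Hopf algebra is anti-Poisson
-/

open TensorProduct Coalgebra HopfAlgebra

namespace Pool.Agent.PoissonHopf

section Calc

variable {k R : Type*} [Field k] [CommRing R] [Algebra k R] (P : PoissonBracket k R)

theorem swap_sum (S : R →ₗ[k] R) {ι κ : Type*} (s : Finset ι) (x y : ι → R) (t : Finset κ)
    (x' y' : κ → R) (c c' : k) (h : ∑ i ∈ s, S (x i) * y i = algebraMap k R c)
    (h' : ∑ j ∈ t, S (x' j) * y' j = algebraMap k R c') :
    ∑ i ∈ s, ∑ j ∈ t, S (x i) * S (x' j) * P.br (y i) (y' j) =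
      ∑ i ∈ s, ∑ j ∈ t, y i * y' j * P.br (S (x i)) (S (x' j)) := by
  have A1 : ∀ z, ∑ i ∈ s, S (x i) * P.br (y i) z = - ∑ i ∈ s, y i * P.br (S (x i)) z := by
    intro z
    have := congrArg (fun r => P.br r z) h
    simp only [map_sum, LinearMap.sum_apply, P.leibniz_left, P.algebraMap_br,
      Finset.sum_add_distrib] at this
    rw [eq_neg_iff_add_eq_zero, ← this, add_comm]
    congr 1
    exact Finset.sum_congr rfl fun i _ => mul_comm _ _
  have A2 : ∀ z, ∑ j ∈ t, S (x' j) * P.br z (y' j) = - ∑ j ∈ t, y' j * P.br z (S (x' j)) := by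
    intro z
    have := congrArg (fun r => P.br z r) h'
    simp only [map_sum, P.leibniz, P.br_algebraMap,
      Finset.sum_add_distrib] at this
    rw [eq_neg_iff_add_eq_zero, ← this, add_comm]
    congr 1
    exact Finset.sum_congr rfl fun i _ => mul_comm _ _
  calc ∑ i ∈ s, ∑ j ∈ t, S (x i) * S (x' j) * P.br (y i) (y' j)
      = ∑ j ∈ t, S (x' j) * ∑ i ∈ s, S (x i) * P.br (y i) (y' j) := by
        rw [Finset.sum_comm]
        refine Finset.sum_congr rfl fun j _ => ?_
        rw [Finset.mul_sum]
        exact Finset.sum_congr rfl fun i _ => by ring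
    _ = - ∑ i ∈ s, y i * ∑ j ∈ t, S (x' j) * P.br (S (x i)) (y' j) := by
        simp only [A1, Finset.mul_sum, mul_neg, Finset.sum_neg_distrib]
        rw [Finset.sum_comm]
        congr 1
        refine Finset.sum_congr rfl fun i _ => Finset.sum_congr rfl fun j _ => ?_
        ring
    _ = ∑ i ∈ s, ∑ j ∈ t, y i * y' j * P.br (S (x i)) (S (x' j)) := by
        simp only [A2, Finset.mul_sum, mul_neg, Finset.sum_neg_distrib, neg_neg]
        refine Finset.sum_congr rfl fun i _ => Finset.sum_congr rfl fun j _ => ?_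
        ring

end Calc

section Anti

variable {k B : Type*} [Field k] [CommRing B] [HopfAlgebra k B] (P : PoissonBracket k B)

/-- A linear map whose convolution with the identity vanishes is zero. -/
theorem conv_cancel (Y : B →ₗ[k] B)
    (h : ∀ a, ∑ i ∈ (ℛ k a).index, Y ((ℛ k a).left i) * (ℛ k a).right i = 0) : Y = 0 := by
  have h1 : (WithConv.toConv Y * WithConv.toConv LinearMap.id : WithConv (B →ₗ[k] B)) = 0 := by
    ext a
    rw [(ℛ k a).convMul_apply]
    exact h a
  have h2 : (WithConv.toConv Y : WithConv (B →ₗ[k] B)) = 0 := by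
    calc (WithConv.toConv Y : WithConv (B →ₗ[k] B))
        = WithConv.toConv Y * (WithConv.toConv LinearMap.id *
            WithConv.toConv (antipode k (A := B))) := by
          rw [LinearMap.id_mul_antipode, mul_one]
      _ = 0 := by rw [← mul_assoc, h1, zero_mul]
  exact WithConv.toConv_injective h2

theorem antipode_br (hΔ : ∀ a b, comul (R := k) (P.br a b) =
      tensorBr P.br P.br (comul a) (comul b)) (hε : ∀ a b, counit (R := k) (P.br a b) = 0)
    (a b : B) : antipode k (P.br a b) = - P.br (antipode k a) (antipode k b) := by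
  -- the defect
  let Y : B →ₗ[k] B →ₗ[k] B := P.br.compr₂ (antipode k) + P.br.compl₁₂ (antipode k) (antipode k)
  have hY : ∀ a b, Y a b = antipode k (P.br a b) + P.br (antipode k a) (antipode k b) :=
    fun _ _ => rfl
  have key : ∀ a b : B, ∑ i ∈ (ℛ k a).index, ∑ j ∈ (ℛ k b).index,
      Y ((ℛ k a).left i) ((ℛ k b).left j) * ((ℛ k a).right i * (ℛ k b).right j) = 0 := by
    intro a b
    have h1 := mul_antipode_rTensor_comul_apply (R := k) (P.br a b)
    rw [hε, map_zero, hΔ] at h1
    nth_rewrite 1 [← (ℛ k a).eq] at h1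
    nth_rewrite 1 [← (ℛ k b).eq] at h1
    simp only [map_sum, LinearMap.sum_apply, tensorBr_tmul, map_add, LinearMap.rTensor_tmul,
      LinearMap.mul'_apply, antipode_mul_distrib, Finset.sum_add_distrib] at h1
    rw [Finset.sum_comm (s := (ℛ k b).index), Finset.sum_comm (s := (ℛ k b).index),
      swap_sum P (antipode k) (ℛ k a).index (ℛ k a).left (ℛ k a).right (ℛ k b).index
      (ℛ k b).left (ℛ k b).right _ _ (sum_antipode_mul_eq_algebraMap_counit (ℛ k a))
      (sum_antipode_mul_eq_algebraMap_counit (ℛ k b)), ← Finset.sum_add_distrib] at h1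
    rw [← h1]
    refine Finset.sum_congr rfl fun i _ => ?_
    rw [← Finset.sum_add_distrib]
    refine Finset.sum_congr rfl fun j _ => ?_
    rw [hY]; ring
  have hY0 : ∀ b, Y.flip b = 0 := by
    intro b
    apply conv_cancel
    intro a
    have h2 : (∑ i ∈ (ℛ k a).index, (LinearMap.mulRight k ((ℛ k a).right i)) ∘ₗ
        (Y ((ℛ k a).left i))) = 0 := by
      apply conv_cancel
      intro b
      rw [← key a b, Finset.sum_comm]
      refine Finset.sum_congr rfl fun j _ => ?_
      simp only [LinearMap.sum_apply, LinearMap.comp_apply, LinearMap.mulRight_apply,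
        Finset.sum_mul, mul_assoc]
    have h3 := congrArg (fun F => F b) h2
    simpa using h3
  have h4 : Y a b = 0 := congrArg (fun F => F a) (hY0 b)
  rw [hY] at h4
  exact eq_neg_of_add_eq_zero_left h4

end Anti

section Compat

variable {k A B : Type*} [Field k] [CommRing A] [HopfAlgebra k A] [CommRing B] [HopfAlgebra k B]

/-- Bialgebra maps between commutative Hopf algebras commute with antipodes. -/
theorem hom_antipode (f : A →ₐc[k] B) (a : A) : f (antipode k a) = antipode k (f a) := by
  let F : WithConv (A →ₐ[k] B) := WithConv.toConv (f : A →ₐ[k] B)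
  let G : WithConv (A →ₐ[k] B) := WithConv.toConv ((antipodeAlgHom k B).comp (f : A →ₐ[k] B))
  have h : G * F = 1 := by
    ext x
    have h1 := sum_antipode_mul_eq_algebraMap_counit ((ℛ k x).induced (f : A →ₗc[k] B))
    have h2 : (G * F) x = ∑ i ∈ (ℛ k x).index, G ((ℛ k x).left i) * F ((ℛ k x).right i) := by
      rw [AlgHom.convMul_apply, ← (ℛ k x).eq]
      simp
    rw [h2, AlgHom.convOne_apply]
    have h3 : counit (R := k) (f x) = counit (R := k) x := CoalgHomClass.counit_comp_apply f x
    rw [← h3]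
    exact h1
  have h' : G = F⁻¹ := eq_inv_of_mul_eq_one_left h
  have h2 : F⁻¹ = WithConv.toConv ((f : A →ₐ[k] B).comp (antipodeAlgHom k A)) := rfl
  rw [h2] at h'
  have h3 := congrArg (fun F : WithConv (A →ₐ[k] B) => F.ofConv a) h'
  exact h3.symm

end Compat

end Pool.Agent.PoissonHopf
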