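import Mathlib

/-!
# Slices and subcomodules of a commutative Hopf algebra
-/

open TensorProduct Coalgebra HopfAlgebra Bialgebra

namespace Pool.Agent.PoissonHopf

universe u

section Slices

variable {k B : Type u} [Field k] [CommRing B] [HopfAlgebra k B]

/-- The right slice `x ⊗ y ↦ β(y) x`. -/
noncomputable def sl (β : B →ₗ[k] k) : B ⊗[k] B →ₗ[k] B :=
  (TensorProduct.rid k B).toLinearMap ∘ₗ β.lTensor B

@[simp] theorem sl_tmul (β : B →ₗ[k] k) (x y : B) : sl β (x ⊗ₜ y) = β y • x := by
  simp [sl]

/-- The left slice `x ⊗ y ↦ β(x) y`. -/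
noncomputable def sr (β : B →ₗ[k] k) : B ⊗[k] B →ₗ[k] B :=
  (TensorProduct.lid k B).toLinearMap ∘ₗ β.rTensor B

@[simp] theorem sr_tmul (β : B →ₗ[k] k) (x y : B) : sr β (x ⊗ₜ y) = β x • y := by
  simp [sr]

theorem counit_sl (β : B →ₗ[k] k) (x : B) : counit (R := k) (sl β (comul x)) = β x := by
  have h : ∀ t : B ⊗[k] B, counit (R := k) (sl β t) =
      β (TensorProduct.lid k B (counit.rTensor B t)) := by
    intro t
    induction t with
    | zero => simp
    | add s t h h' => simp only [map_add, h, h']
    | tmul a b => simp [mul_comm]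
  rw [h, rTensor_counit_comul]; simp

theorem counit_sr (β : B →ₗ[k] k) (x : B) : counit (R := k) (sr β (comul x)) = β x := by
  have h : ∀ t : B ⊗[k] B, counit (R := k) (sr β t) =
      β (TensorProduct.rid k B (counit.lTensor B t)) := by
    intro t
    induction t with
    | zero => simp
    | add s t h h' => simp only [map_add, h, h']
    | tmul a b => simp [mul_comm]
  rw [h, lTensor_counit_comul]; simp

theorem sl_counit (x : B) : sl (counit (R := k)) (comul x) = x := by
  have h : ∀ t : B ⊗[k] B, sl (counit (R := k)) t =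
      (TensorProduct.rid k B (counit.lTensor B t)) := fun t => rfl
  rw [h, lTensor_counit_comul]; simp

/-- Convolution of functionals. -/
noncomputable def convF (γ β : B →ₗ[k] k) : B →ₗ[k] k :=
  LinearMap.mul' k k ∘ₗ TensorProduct.map γ β ∘ₗ comul

theorem sl_sl (γ β : B →ₗ[k] k) (x : B) :
    sl γ (comul (sl β (comul x))) = sl (convF γ β) (comul x) := by
  -- contraction of a triple tensor
  let Θ : (B ⊗[k] B) ⊗[k] B →ₗ[k] B :=
    (TensorProduct.rid k B).toLinearMap ∘ₗ TensorProduct.map (sl γ) β
  have h1 : ∀ t : B ⊗[k] B, sl γ (comul (sl β t)) = Θ (comul.rTensor B t) := by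
    intro t
    induction t with
    | zero => simp
    | add s t h h' => simp only [map_add, h, h']
    | tmul a b => simp [Θ]
  have h2 : ∀ t : B ⊗[k] (B ⊗[k] B), Θ ((TensorProduct.assoc k B B B).symm t) =
      (TensorProduct.rid k B).toLinearMap
        ((LinearMap.mul' k k ∘ₗ TensorProduct.map γ β).lTensor B t) := by
    intro t
    induction t with
    | zero => simp
    | add s t h h' => simp only [map_add, h, h']
    | tmul a b =>
      induction b with
      | zero => simp
      | add s t h h' => simp only [map_add, h, h', tmul_add]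
      | tmul b c => simp [Θ, smul_smul, mul_comm]
  have h3 : comul.rTensor B (comul (R := k) x) =
      (TensorProduct.assoc k B B B).symm (comul.lTensor B (comul x)) := by
    rw [← coassoc_apply]; simp
  rw [h1, h3, h2]
  have h4 : ∀ t : B ⊗[k] B, (TensorProduct.rid k B).toLinearMap
        ((LinearMap.mul' k k ∘ₗ TensorProduct.map γ β).lTensor B (comul.lTensor B t)) =
        sl (convF γ β) t := by
    intro t
    induction t with
    | zero => simp
    | add s t h h' => simp only [map_add, h, h']
    | tmul a b => simp [convF]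
  exact h4 _

theorem comul_sr (ω : B →ₗ[k] k) (x : B) :
    comul (sr ω (comul x)) = (sr ω ∘ₗ comul).rTensor B (comul (R := k) x) := by
  let Θ : B ⊗[k] (B ⊗[k] B) →ₗ[k] B ⊗[k] B :=
    (TensorProduct.lid k (B ⊗[k] B)).toLinearMap ∘ₗ ω.rTensor (B ⊗[k] B)
  have h1 : ∀ t : B ⊗[k] B, comul (sr ω t) = Θ (comul.lTensor B t) := by
    intro t
    induction t with
    | zero => simp
    | add s t h h' => simp only [map_add, h, h']
    | tmul a b => simp [Θ]
  have h2 : ∀ t : (B ⊗[k] B) ⊗[k] B, Θ (TensorProduct.assoc k B B B t) =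
      (sr ω).rTensor B t := by
    intro t
    induction t with
    | zero => simp
    | add s t h h' => simp only [map_add, h, h']
    | tmul a b =>
      induction a with
      | zero => simp
      | add s t h h' => simp only [map_add, h, h', add_tmul]
      | tmul a c => simp [Θ, smul_tmul']
  rw [h1, ← coassoc_apply, h2, LinearMap.rTensor_comp]
  rfl

/-- Right subcomodules. -/
def Stable (X : Submodule k B) : Prop := ∀ x ∈ X, ∀ β : B →ₗ[k] k, sl β (comul x) ∈ X

theorem exists_rep (X : Submodule k B) (t : B ⊗[k] B) (h : ∀ β : B →ₗ[k] k, sl β t ∈ X) :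
    ∃ (κ : Type u) (s : Finset κ) (p q : κ → B), (∀ i, p i ∈ X) ∧
      t = ∑ i ∈ s, p i ⊗ₜ[k] q i := by
  classical
  let e := Module.Basis.ofVectorSpace k B
  obtain ⟨c, hc⟩ := TensorProduct.eq_repr_basis_right e t
  refine ⟨_, c.support, fun i => c i, e, ?_, ?_⟩
  · intro i
    have h1 := h (e.coord i)
    rw [← hc, Finsupp.sum, map_sum] at h1
    simp only [sl_tmul, Module.Basis.coord_apply, Module.Basis.repr_self] at h1
    by_cases hi : i ∈ c.support
    · rw [Finset.sum_eq_single i] at h1
      · simpa using h1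
      · intro j _ hj
        rw [Finsupp.single_eq_of_ne (Ne.symm hj)]; simp
      · intro h; exact absurd hi h
    · have : c i = 0 := by simpa using hi
      change c i ∈ X
      rw [this]; exact X.zero_mem
  · exact hc.symm

theorem Stable.exists_rep {X : Submodule k B} (hX : Stable X) {x : B} (hx : x ∈ X) :
    ∃ (κ : Type u) (s : Finset κ) (p q : κ → B), (∀ i, p i ∈ X) ∧
      comul (R := k) x = ∑ i ∈ s, p i ⊗ₜ[k] q i :=
  Pool.Agent.PoissonHopf.exists_rep X _ (hX x hx)

theorem sl_mul_tmul (β : B →ₗ[k] k) (p q : B) (t : B ⊗[k] B) :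
    sl β ((p ⊗ₜ q) * t) = p * sl (β ∘ₗ LinearMap.mulLeft k q) t := by
  induction t with
  | zero => simp
  | add s t h h' => simp only [map_add, h, h', mul_add]
  | tmul a b => simp

theorem Stable.mul {X Y : Submodule k B} (hX : Stable X) (hY : Stable Y) : Stable (X * Y) := by
  intro z hz β
  induction hz using Submodule.mul_induction_on' with
  | mem_mul_mem x hx y hy =>
    obtain ⟨κ, s, p, q, hp, hpq⟩ := hX.exists_rep hx
    rw [comul_mul, hpq, Finset.sum_mul, map_sum]
    refine Submodule.sum_mem _ fun i _ => ?_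
    rw [sl_mul_tmul]
    exact Submodule.mul_mem_mul (hp i) (hY y hy _)
  | add x hx y hy h h' => rw [map_add, map_add]; exact Submodule.add_mem _ h h'

theorem Stable.sup {X Y : Submodule k B} (hX : Stable X) (hY : Stable Y) : Stable (X ⊔ Y) := by
  intro z hz β
  obtain ⟨x, hx, y, hy, rfl⟩ := Submodule.mem_sup.1 hz
  rw [map_add, map_add]
  exact Submodule.add_mem_sup (hX x hx β) (hY y hy β)

/-- Local finiteness. -/
theorem exists_stable_singleton (b : B) :
    ∃ V : Submodule k B, Module.Finite k V ∧ Stable V ∧ b ∈ V := by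
  classical
  let L : (B →ₗ[k] k) →ₗ[k] B :=
    { toFun := fun β => sl β (comul b)
      map_add' := fun β γ => by simp [sl, LinearMap.lTensor_add]
      map_smul' := fun c β => by simp [sl, LinearMap.lTensor_smul] }
  refine ⟨LinearMap.range L, ?_, ?_, ⟨counit, sl_counit b⟩⟩
  · have hle : LinearMap.range L ≤
        Submodule.span k (((ℛ k b).index.image (ℛ k b).left : Finset B) : Set B) := by
      rintro _ ⟨β, rfl⟩
      change sl β (comul b) ∈ _
      rw [← (ℛ k b).eq, map_sum]
      refine Submodule.sum_mem _ fun i hi => ?_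
      rw [sl_tmul]
      exact Submodule.smul_mem _ _ (Submodule.subset_span (Finset.mem_coe.2
        (Finset.mem_image_of_mem _ hi)))
    have : Module.Finite k (Submodule.span k
        (((ℛ k b).index.image (ℛ k b).left : Finset B) : Set B)) :=
      Module.Finite.span_finset k _
    exact Submodule.finiteDimensional_of_le hle
  · rintro _ ⟨β, rfl⟩ γ
    exact ⟨convF γ β, (sl_sl γ β b).symm⟩

theorem exists_stable_finset (s : Finset B) :
    ∃ V : Submodule k B, Module.Finite k V ∧ Stable V ∧ ∀ b ∈ s, b ∈ V := by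
  classical
  induction s using Finset.induction_on with
  | empty =>
    obtain ⟨V, h1, h2, -⟩ := exists_stable_singleton (k := k) (0 : B)
    exact ⟨V, h1, h2, by simp⟩
  | insert a s _ ih =>
    obtain ⟨V, h1, h2, h3⟩ := ih
    obtain ⟨W, g1, g2, g3⟩ := exists_stable_singleton (k := k) a
    refine ⟨V ⊔ W, Submodule.finiteDimensional_sup _ _, h2.sup g2, ?_⟩
    intro b hb
    rcases Finset.mem_insert.1 hb with rfl | hb
    · exact Submodule.mem_sup_right g3
    · exact Submodule.mem_sup_left (h3 b hb)

end Slices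

end Pool.Agent.PoissonHopf
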