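import Mathlib

/-!
# Poisson algebras, Poisson Hopf algebras and their category
-/

open TensorProduct

namespace Pool.Agent.PoissonHopf

universe u

/-- A Poisson bracket on the commutative `k`-algebra `A`: a `k`-bilinear alternating bracket
satisfying the Jacobi identity and the Leibniz rule `{a, bc} = {a, b} c + b {a, c}`. -/
structure PoissonBracket (k A : Type*) [Field k] [CommRing A] [Algebra k A] where
  /-- The bracket `{a, b}`. -/
  br : A →ₗ[k] A →ₗ[k] A
  br_self : ∀ a, br a a = 0
  jacobi : ∀ a b c, br a (br b c) + br b (br c a) + br c (br a b) = 0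
  leibniz : ∀ a b c, br a (b * c) = br a b * c + b * br a c

/-- The bracket of the tensor product of two algebras with brackets `β` and `γ`:
`{a ⊗ b, c ⊗ d} = {a, c} ⊗ bd + ac ⊗ {b, d}`. -/
noncomputable def tensorBr {k A B : Type*} [Field k] [CommRing A] [Algebra k A] [CommRing B]
    [Algebra k B] (β : A →ₗ[k] A →ₗ[k] A) (γ : B →ₗ[k] B →ₗ[k] B) :
    A ⊗[k] B →ₗ[k] A ⊗[k] B →ₗ[k] A ⊗[k] B :=
  TensorProduct.map₂ β (LinearMap.mul k B) + TensorProduct.map₂ (LinearMap.mul k A) γ

/-- A Poisson Hopf algebra over `k`: a commutative Hopf algebra with a Poisson bracket such that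
the comultiplication and the counit are morphisms of Poisson algebras (`k` has zero bracket). -/
structure PoissHopf (k : Type u) [Field k] where
  /-- The underlying type. -/
  carrier : Type u
  [commRing : CommRing carrier]
  [hopf : HopfAlgebra k carrier]
  /-- The Poisson bracket. -/
  P : PoissonBracket k carrier
  comul_br : ∀ a b, Coalgebra.comul (R := k) (P.br a b) =
    tensorBr P.br P.br (Coalgebra.comul a) (Coalgebra.comul b)
  counit_br : ∀ a b, Coalgebra.counit (R := k) (P.br a b) = 0

attribute [instance] PoissHopf.commRing PoissHopf.hopf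

/-- A morphism of Poisson Hopf algebras: a bialgebra map (hence a Hopf algebra map) which
preserves the bracket. -/
@[ext]
structure PoissHopf.Hom {k : Type u} [Field k] (A B : PoissHopf.{u} k) where
  /-- The underlying map of bialgebras. -/
  hom : A.carrier →ₐc[k] B.carrier
  map_br : ∀ a b, hom (A.P.br a b) = B.P.br (hom a) (hom b)

/-- The category of Poisson Hopf algebras over `k`. -/
instance PoissHopf.category {k : Type u} [Field k] : CategoryTheory.Category (PoissHopf.{u} k) where
  Hom A B := PoissHopf.Hom A B
  id A := ⟨BialgHom.id k A.carrier, fun _ _ => rfl⟩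
  comp f g := ⟨g.hom.comp f.hom, fun a b => by
    simp only [BialgHom.comp_apply, f.map_br, g.map_br]⟩

end Pool.Agent.PoissonHopf
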