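import Mathlib

/-!
# Poisson Hopf algebras: the definition used in the final statement
-/

open TensorProduct

namespace Pool.Agent.PoissonHopf

universe u

/-- `br` is a Poisson bracket on the commutative Hopf algebra `A` over `k` making it a Poisson
Hopf algebra: it is bilinear and alternating, satisfies the Jacobi identity and the Leibniz rule,
and the counit `A → k` (zero bracket on `k`) and the comultiplication `A → A ⊗ A` (bracket
`{a ⊗ b, c ⊗ d} = {a, c} ⊗ bd + ac ⊗ {b, d}`) preserve brackets. -/
structure IsPoissonHopf (k : Type u) {A : Type u} [Field k] [CommRing A] [HopfAlgebra k A]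
    (br : A → A → A) : Prop where
  br_self : ∀ a : A, br a a = 0
  add_br : ∀ a b c : A, br (a + b) c = br a c + br b c
  br_add : ∀ a b c : A, br a (b + c) = br a b + br a c
  smul_br : ∀ (r : k) (a b : A), br (r • a) b = r • br a b
  br_smul : ∀ (r : k) (a b : A), br a (r • b) = r • br a b
  jacobi : ∀ a b c : A, br a (br b c) + br b (br c a) + br c (br a b) = 0
  leibniz : ∀ a b c : A, br a (b * c) = br a b * c + b * br a c
  counit_br : ∀ a b : A, Coalgebra.counit (R := k) (br a b) = 0
  comul_br : ∀ (a b : A) (s t : Finset (A × A)),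
    Coalgebra.comul (R := k) a = ∑ p ∈ s, p.1 ⊗ₜ[k] p.2 →
    Coalgebra.comul (R := k) b = ∑ q ∈ t, q.1 ⊗ₜ[k] q.2 →
    Coalgebra.comul (R := k) (br a b) =
      ∑ p ∈ s, ∑ q ∈ t, (br p.1 q.1 ⊗ₜ[k] (p.2 * q.2) + (p.1 * q.1) ⊗ₜ[k] br p.2 q.2)

/-- `f : A → B` is cancellable against pairs of Poisson Hopf algebra morphisms from `(B, brB)` to
`(C, brC)`: if `g` and `h` are bialgebra maps (hence Hopf algebra maps) `B → C` which preserve
brackets and `g ∘ f = h ∘ f`, then `g = h`. -/
def CancelsInto {k A B C : Type u} [Field k] [CommRing A] [HopfAlgebra k A] [CommRing B]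
    [HopfAlgebra k B] [CommRing C] [HopfAlgebra k C] (f : A →ₐc[k] B) (brB : B → B → B)
    (brC : C → C → C) : Prop :=
  ∀ g h : B →ₐc[k] C, (∀ b b' : B, g (brB b b') = brC (g b) (g b')) →
    (∀ b b' : B, h (brB b b') = brC (h b) (h b')) → (∀ a : A, g (f a) = h (f a)) → g = h

end Pool.Agent.PoissonHopf
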