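import Pool.Agent.Lib.MP_c108b5_al.Main
import Pool.Agent.Lib.MP_c108b5_al.Statement

/-!
# Translation to the unbundled statement
-/

open TensorProduct Coalgebra

namespace Pool.Agent.PoissonHopf

universe u

variable {k : Type u} [Field k]

/-- The bundled object attached to an unbundled Poisson Hopf algebra. -/
noncomputable def IsPoissonHopf.obj {A : Type u} [CommRing A] [HopfAlgebra k A]
    {br : A → A → A} (h : IsPoissonHopf k br) : PoissHopf.{u} k where
  carrier := A
  P :=
    { br := LinearMap.mk₂ k br h.add_br h.smul_br h.br_add h.br_smul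
      br_self := h.br_self
      jacobi := h.jacobi
      leibniz := h.leibniz }
  comul_br := by
    intro a b
    obtain ⟨s, hs⟩ := TensorProduct.exists_finset (comul (R := k) a)
    obtain ⟨t, ht⟩ := TensorProduct.exists_finset (comul (R := k) b)
    have h1 := h.comul_br a b s t hs ht
    rw [hs, ht]
    simp only [map_sum, LinearMap.sum_apply, tensorBr_tmul]
    rw [Finset.sum_comm]
    exact h1
  counit_br := h.counit_br

theorem isPoissonHopf_obj (C : PoissHopf.{u} k) :
    IsPoissonHopf k (fun a b : C.carrier => C.P.br a b) where
  br_self := C.P.br_self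
  add_br a b c := by simp
  br_add a b c := by simp
  smul_br r a b := by simp
  br_smul r a b := by simp
  jacobi := C.P.jacobi
  leibniz := C.P.leibniz
  counit_br := C.counit_br
  comul_br := by
    intro a b s t hs ht
    rw [C.comul_br, hs, ht]
    simp only [map_sum, LinearMap.sum_apply, tensorBr_tmul]
    rw [Finset.sum_comm]

theorem surjective_unbundled {A B : Type u} [CommRing A] [HopfAlgebra k A]
    [CommRing B] [HopfAlgebra k B] (brA : A → A → A) (brB : B → B → B)
    (hA : IsPoissonHopf k brA) (hB : IsPoissonHopf k brB) (f : A →ₐc[k] B)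
    (hf : ∀ a a' : A, f (brA a a') = brB (f a) (f a'))
    (hepi : ∀ (C : Type u) [CommRing C] [HopfAlgebra k C] (brC : C → C → C),
      IsPoissonHopf k brC → CancelsInto f brB brC) :
    Function.Surjective f := by
  let F : hA.obj ⟶ hB.obj := ⟨f, hf⟩
  have hF : CategoryTheory.Epi F := by
    constructor
    intro Z g h hgh
    apply PoissHopf.Hom.ext
    refine hepi Z.carrier (fun a b => Z.P.br a b) (isPoissonHopf_obj Z) g.hom h.hom
      g.map_br h.map_br ?_
    intro a
    exact congrArg (fun T : hA.obj ⟶ Z => T.hom a) hgh
  exact surjective_of_epi F hF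

end Pool.Agent.PoissonHopf
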