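import Pool.Agent.Lib.MP_c108b5_al.Sub

/-!
# The flatness argument
-/

open TensorProduct Coalgebra HopfAlgebra Bialgebra Matrix

namespace Pool.Agent.PoissonHopf

universe u

section Flat

variable {k B : Type u} [Field k] [CommRing B] [HopfAlgebra k B]

omit [HopfAlgebra k B] in
/-- A relative dual basis of `W` modulo `V`. -/
theorem exists_compl_basis [Algebra k B] (V W : Submodule k B) [Module.Finite k W] :
    ∃ (n : ℕ) (w : Fin n → B) (ω : Fin n → (B →ₗ[k] k)), (∀ i, w i ∈ W) ∧
      (∀ i, ∀ v ∈ V, ω i v = 0) ∧ (∀ i j, ω i (w j) = if i = j then 1 else 0) ∧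
      ∀ z ∈ W, z - ∑ i, ω i z • w i ∈ V := by
  let W' := W.map V.mkQ
  have : Module.Finite k W' := Module.Finite.map W V.mkQ
  let bb := Module.finBasis k W'
  have hw : ∀ i, ∃ w ∈ W, V.mkQ w = bb i := fun i => (bb i).2
  choose w hwW hw using hw
  have hg : ∀ i, ∃ g : (B ⧸ V) →ₗ[k] k, g ∘ₗ W'.subtype = bb.coord i := fun i =>
    LinearMap.exists_extend _
  choose g hg using hg
  refine ⟨_, w, fun i => g i ∘ₗ V.mkQ, hwW, ?_, ?_, ?_⟩
  · intro i v hv
    have : V.mkQ v = 0 := (Submodule.Quotient.mk_eq_zero V).2 hv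
    rw [LinearMap.comp_apply, this, map_zero]
  · intro i j
    have h := congrArg (fun F => F (bb j)) (hg i)
    simp only [LinearMap.comp_apply, Submodule.subtype_apply, Module.Basis.coord_apply,
      Module.Basis.repr_self, Finsupp.single_apply] at h
    rw [LinearMap.comp_apply, hw, h]
    simp [eq_comm]
  · intro z hz
    have hz' : V.mkQ z ∈ W' := Submodule.mem_map_of_mem hz
    have h1 := bb.sum_repr ⟨V.mkQ z, hz'⟩
    have h2 := congrArg W'.subtype h1
    simp only [map_sum, map_smul, Submodule.subtype_apply] at h2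
    rw [← Submodule.Quotient.mk_eq_zero, ← Submodule.mkQ_apply, map_sub, map_sum, sub_eq_zero,
      ← h2]
    refine Finset.sum_congr rfl fun i _ => ?_
    rw [map_smul, hw]
    congr 1
    have h := congrArg (fun F => F ⟨V.mkQ z, hz'⟩) (hg i)
    simp only [LinearMap.comp_apply, Submodule.subtype_apply, Module.Basis.coord_apply] at h
    rw [LinearMap.comp_apply, h]

theorem apply_sl (ω β : B →ₗ[k] k) (t : B ⊗[k] B) : ω (sl β t) = β (sr ω t) := by
  induction t with
  | zero => simp
  | add s t h h' => simp only [map_add, h, h']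
  | tmul a b => simp [mul_comm]

/-- Matrix coefficients of `W / V`. -/
noncomputable def coeffs {n : ℕ} (w : Fin n → B) (ω : Fin n → (B →ₗ[k] k)) :
    Matrix (Fin n) (Fin n) B := Matrix.of fun i j => sr (ω i) (comul (w j))

/-- The error term. -/
noncomputable def errT {n : ℕ} (w : Fin n → B) (ω : Fin n → (B →ₗ[k] k)) (j : Fin n) :
    B ⊗[k] B := comul (w j) - ∑ i, w i ⊗ₜ[k] coeffs w ω i j

variable {V W : Submodule k B} (hV : Stable V) (hW : Stable W) {n : ℕ} {w : Fin n → B}
  {ω : Fin n → (B →ₗ[k] k)} (hwW : ∀ i, w i ∈ W) (hωV : ∀ i, ∀ v ∈ V, ω i v = 0)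
  (hωw : ∀ i j, ω i (w j) = if i = j then 1 else 0)
  (hdec : ∀ z ∈ W, z - ∑ i, ω i z • w i ∈ V)

include hW hwW hdec in
theorem sl_errT (j : Fin n) (β : B →ₗ[k] k) : sl β (errT w ω j) ∈ V := by
  have h := hdec _ (hW _ (hwW j) β)
  have h2 : sl β (errT w ω j) = sl β (comul (w j)) - ∑ i, ω i (sl β (comul (w j))) • w i := by
    simp only [errT, coeffs, map_sub, map_sum, sl_tmul, Matrix.of_apply, apply_sl]
  rw [h2]
  exact h

include hV hW hwW hωV hωw hdec in
theorem coeffs_inv : (coeffs w ω).map (antipode k) * coeffs w ω = 1 := by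
  ext i j
  have h1 : comul (R := k) (coeffs w ω i j) = ∑ l, coeffs w ω i l ⊗ₜ[k] coeffs w ω l j := by
    have h2 : comul (R := k) (coeffs w ω i j) =
        (sr (ω i) ∘ₗ comul).rTensor B (comul (R := k) (w j)) := comul_sr (ω i) (w j)
    have h3 : comul (R := k) (w j) = errT w ω j + ∑ i, w i ⊗ₜ[k] coeffs w ω i j := by
      simp [errT]
    obtain ⟨κ, s, p, q, hp, hpq⟩ := exists_rep V _ (sl_errT hW hwW hdec j)
    rw [h2, h3, map_add, map_sum, hpq, map_sum]
    have h4 : ∀ x ∈ V, sr (ω i) (comul (R := k) x) = 0 := by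
      intro x hx
      obtain ⟨κ', s', p', q', hp', hpq'⟩ := hV.exists_rep hx
      rw [hpq', map_sum]
      exact Finset.sum_eq_zero fun l _ => by rw [sr_tmul, hωV i _ (hp' l), zero_smul]
    have h5 : ∑ x ∈ s, (sr (ω i) ∘ₗ comul).rTensor B (p x ⊗ₜ[k] q x) = 0 :=
      Finset.sum_eq_zero fun l _ => by
        rw [LinearMap.rTensor_tmul, LinearMap.comp_apply, h4 _ (hp l), zero_tmul]
    rw [h5, zero_add]
    rfl
  have h6 := mul_antipode_rTensor_comul_apply (R := k) (coeffs w ω i j)
  rw [h1, map_sum, map_sum] at h6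
  simp only [LinearMap.rTensor_tmul, LinearMap.mul'_apply] at h6
  have h7 : counit (R := k) (coeffs w ω i j) = if i = j then 1 else 0 := by
    rw [← hωw i j]; exact counit_sr (ω i) (w j)
  rw [h7] at h6
  rw [Matrix.mul_apply, Matrix.one_apply]
  simp only [Matrix.map_apply]
  rw [h6]
  split_ifs <;> simp

variable {R : Subalgebra k B} (hR : SubHopf R)

/-- The module of relations. -/
def relK (V : Submodule k B) (w : Fin n → B) (R : Subalgebra k B) : Submodule k (Fin n → B) where
  carrier := {a | (∀ i, a i ∈ R) ∧ ∑ l, w l * a l ∈ V * Subalgebra.toSubmodule R}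
  add_mem' := fun {a b} ha hb => ⟨fun i => R.add_mem (ha.1 i) (hb.1 i), by
    simp only [Pi.add_apply, mul_add, Finset.sum_add_distrib]
    exact Submodule.add_mem _ ha.2 hb.2⟩
  zero_mem' := ⟨fun i => R.zero_mem, by simp⟩
  smul_mem' := fun c a ha => ⟨fun i => R.smul_mem (ha.1 i) c, by
    simp only [Pi.smul_apply, mul_smul_comm, ← Finset.smul_sum]
    exact Submodule.smul_mem _ _ ha.2⟩

/-- The translate of a relation by a functional. -/
noncomputable def transR (C : Matrix (Fin n) (Fin n) B) (β : B →ₗ[k] k) (a : Fin n → B) :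
    Fin n → B := fun i => ∑ j, sl (β ∘ₗ LinearMap.mulLeft k (C i j)) (comul (a j))

theorem counit_transR (C : Matrix (Fin n) (Fin n) B) (β : B →ₗ[k] k) (a : Fin n → B)
    (i : Fin n) : counit (R := k) (transR C β a i) = β ((C.mulVec a) i) := by
  simp only [transR, map_sum, counit_sl, LinearMap.comp_apply, LinearMap.mulLeft_apply,
    Matrix.mulVec, dotProduct]

include hV hW hwW hdec hR in
theorem transR_mem {a : Fin n → B} (ha : a ∈ relK V w R) (β : B →ₗ[k] k) :
    transR (coeffs w ω) β a ∈ relK V w R := by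
  refine ⟨fun i => Submodule.sum_mem (Subalgebra.toSubmodule R) fun j _ =>
    hR.stable _ (ha.1 j) _, ?_⟩
  have h1 : sl β (comul (∑ l, w l * a l)) ∈ V * Subalgebra.toSubmodule R :=
    (hV.mul hR.stable) _ ha.2 β
  have h3 : ∀ j, comul (R := k) (w j) = errT w ω j + ∑ i, w i ⊗ₜ[k] coeffs w ω i j := by
    intro j; simp [errT]
  have h4 : ∀ j, sl β (errT w ω j * comul (a j)) ∈ V * Subalgebra.toSubmodule R := by
    intro j
    obtain ⟨κ, s, p, q, hp, hpq⟩ := exists_rep V _ (sl_errT hW hwW hdec j)
    rw [hpq, Finset.sum_mul, map_sum]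
    refine Submodule.sum_mem _ fun i _ => ?_
    rw [sl_mul_tmul]
    exact Submodule.mul_mem_mul (hp i) (hR.stable _ (ha.1 j) _)
  have h5 : sl β (comul (∑ l, w l * a l)) = ∑ l, sl β (errT w ω l * comul (a l)) +
      ∑ i, w i * transR (coeffs w ω) β a i := by
    rw [map_sum, map_sum]
    simp only [comul_mul, h3, add_mul, map_add, Finset.sum_add_distrib, Finset.sum_mul, map_sum,
      sl_mul_tmul]
    congr 1
    rw [Finset.sum_comm]
    refine Finset.sum_congr rfl fun i _ => ?_
    rw [transR, Finset.mul_sum]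
  have h6 : ∑ i, w i * transR (coeffs w ω) β a i = sl β (comul (∑ l, w l * a l)) -
      ∑ l, sl β (errT w ω l * comul (a l)) := by rw [h5]; ring
  rw [h6]
  exact Submodule.sub_mem _ h1 (Submodule.sum_mem _ fun l _ => h4 l)


include hV hW hwW hωV hωw hdec hR in
/-- The flatness statement: `s K ⊆ κ R^m` with control of the augmentation. -/
theorem relK_spec : ∃ (m : ℕ) (s : B) (κ : Fin m → (Fin n → B)), s ∈ R ∧
    counit (R := k) s = 1 ∧ (∀ t, κ t ∈ relK V w R) ∧
    ∀ a ∈ relK V w R, (∀ i, counit (R := k) (a i) = 0) →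
      ∃ α : Fin m → B, (∀ t, α t ∈ augSub R) ∧ ∀ l, s * a l = ∑ t, κ t l * α t := by
  classical
  let C := coeffs w ω
  let K := relK V w R
  let εn : (Fin n → B) →ₗ[k] (Fin n → k) := (counit (R := k) (A := B)).compLeft (Fin n)
  let U : Submodule k (Fin n → k) := K.map εn
  let bU := Module.finBasis k U
  let m := Module.finrank k U
  have hκ : ∀ t : Fin m, ∃ a ∈ K, εn a = bU t := fun t => (bU t).2
  choose κ hκK hκ using hκ
  obtain ⟨q, hq⟩ := LinearMap.exists_extend (p := U) bU.equivFun.toLinearMap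
  have hqU : ∀ u : U, q u = bU.equivFun u := fun u => congrArg (fun F => F u) hq
  let Q : Matrix (Fin m) (Fin n) k := LinearMap.toMatrix' q
  let J : Matrix (Fin n) (Fin m) k := Matrix.of fun i t => (bU t : Fin n → k) i
  have hQ : ∀ u, Q.mulVec u = q u := fun u => LinearMap.toMatrix'_mulVec q u
  have hJQ : ∀ u ∈ U, J.mulVec (Q.mulVec u) = u := by
    intro u hu
    rw [hQ, hqU ⟨u, hu⟩]
    have h1 := congrArg U.subtype (bU.sum_equivFun ⟨u, hu⟩)
    simp only [map_sum, map_smul, Submodule.subtype_apply] at h1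
    ext i
    conv_rhs => rw [← h1]
    simp only [Matrix.mulVec, dotProduct, J, Matrix.of_apply, Finset.sum_apply, Pi.smul_apply,
      smul_eq_mul]
    exact Finset.sum_congr rfl fun t _ => mul_comm _ _
  have hQJ : Q * J = 1 := by
    ext s t
    have h1 : (Q * J) s t = (Q.mulVec (bU t : Fin n → k)) s := rfl
    rw [h1, hQ, hqU, Module.Basis.equivFun_self, Matrix.one_apply]
    simp only [eq_comm]
  -- over B
  let alg := algebraMap k B
  let QB : Matrix (Fin m) (Fin n) B := Q.map alg
  let JB : Matrix (Fin n) (Fin m) B := J.map alg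
  have hU : ∀ a ∈ K, ∀ β : B →ₗ[k] k, (fun i => β ((C.mulVec a) i)) ∈ U := by
    intro a ha β
    refine ⟨transR C β a, transR_mem hV hW hwW hdec hR ha β, ?_⟩
    ext i
    exact counit_transR C β a i
  have hJQB : ∀ a ∈ K, JB.mulVec (QB.mulVec (C.mulVec a)) = C.mulVec a := by
    intro a ha
    ext i
    rw [← sub_eq_zero, ← Module.forall_dual_apply_eq_zero_iff k]
    intro β
    have h1 := congrFun (hJQ _ (hU a ha β)) i
    rw [map_sub, sub_eq_zero]
    rw [← h1]
    simp only [Matrix.mulVec, dotProduct, JB, QB, Matrix.map_apply, alg, map_sum,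
      ← Algebra.smul_def, map_smul, smul_eq_mul]
  let D : Matrix (Fin n) (Fin m) B := C.map (antipode k) * JB
  have hD : ∀ a ∈ K, D.mulVec (QB.mulVec (C.mulVec a)) = a := by
    intro a ha
    have h1 := coeffs_inv hV hW hwW hωV hωw hdec
    rw [← Matrix.mulVec_mulVec, hJQB a ha, Matrix.mulVec_mulVec, h1, Matrix.one_mulVec]
  -- over R
  let algR := algebraMap k R
  let QR : Matrix (Fin m) (Fin n) R := Q.map algR
  let KR : Matrix (Fin n) (Fin m) R := Matrix.of fun i t => ⟨κ t i, (hκK t).1 i⟩
  let TR : Matrix (Fin m) (Fin m) R := QR * KR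
  let φ : R →+* B := R.val.toRingHom
  let KB : Matrix (Fin n) (Fin m) B := KR.map φ
  have hQB : QR.map φ = QB := by ext i j; rfl
  have hKB : ∀ t, (fun i => KB i t) = κ t := fun t => rfl
  let Y : Matrix (Fin m) (Fin m) B := QB * (C * KB)
  have hDY : D * Y = KB := by
    ext i t
    have h1 := congrFun (hD (κ t) (hκK t)) i
    rw [← hKB t] at h1
    have h2 : (D * Y) i t = D.mulVec (fun j => Y j t) i := rfl
    rw [h2]
    exact h1
  let G : Matrix (Fin m) (Fin m) B := QB * D
  let T : Matrix (Fin m) (Fin m) B := TR.map φ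
  have hT : T = G * Y := by
    have : T = QR.map φ * KR.map φ := by simp only [T, TR, Matrix.map_mul]
    rw [this, hQB]
    change QB * KB = G * Y
    rw [← hDY, ← Matrix.mul_assoc]
  have main : ∀ a ∈ K, T.det • a = KB.mulVec (T.adjugate.mulVec (QB.mulVec a)) := by
    intro a ha
    obtain ⟨y, hy⟩ : ∃ y, y = QB.mulVec (C.mulVec a) := ⟨_, rfl⟩
    have h1 : a = D.mulVec y := by rw [hy]; exact (hD a ha).symm
    have h2 : QB.mulVec a = G.mulVec y := by
      conv_lhs => rw [h1]
      rw [Matrix.mulVec_mulVec]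
    rw [h2, hT, Matrix.adjugate_mul_distrib, ← hDY, Matrix.det_mul]
    conv_lhs => rw [h1]
    rw [Matrix.mulVec_mulVec, Matrix.mulVec_mulVec]
    have h3 : D * Y * (Y.adjugate * G.adjugate * G) = (G.det * Y.det) • D := by
      have : D * Y * (Y.adjugate * G.adjugate * G) =
          D * (Y * Y.adjugate) * (G.adjugate * G) := by
        simp only [Matrix.mul_assoc]
      rw [this, Matrix.mul_adjugate, Matrix.adjugate_mul]
      simp only [Matrix.mul_smul, Matrix.mul_one, smul_smul]
    rw [Matrix.mul_assoc (D * Y), h3, Matrix.smul_mulVec]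
  -- augmentations
  let εR : R →+* k := (counitAlgHom k B).toRingHom.comp φ
  have hεK : KR.map εR = J := by
    ext i t
    have := congrFun (hκ t) i
    exact this
  have hεQ : QR.map εR = Q := by
    ext i j
    change counit (R := k) (algebraMap k B (Q i j)) = Q i j
    exact Bialgebra.counit_algebraMap _
  have hεT : TR.map εR = 1 := by
    simp only [TR, Matrix.map_mul]
    rw [hεK, hεQ, hQJ]
  refine ⟨m, φ TR.det, κ, TR.det.2, ?_, hκK, ?_⟩
  · have h1 : εR TR.det = 1 := by
      rw [RingHom.map_det, RingHom.mapMatrix_apply, hεT, Matrix.det_one]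
    exact h1
  · intro a ha hε
    let aR : Fin n → R := fun i => ⟨a i, ha.1 i⟩
    let αR : Fin m → R := TR.adjugate.mulVec (QR.mulVec aR)
    refine ⟨fun t => φ (αR t), fun t => ⟨(αR t).2, ?_⟩, ?_⟩
    · have h1 : ∀ t, εR (QR.mulVec aR t) = 0 := by
        intro t
        simp only [Matrix.mulVec, dotProduct, map_sum, map_mul]
        refine Finset.sum_eq_zero fun i _ => ?_
        have : εR (aR i) = 0 := hε i
        rw [this, mul_zero]
      have h2 : εR (αR t) = 0 := by
        simp only [αR, Matrix.mulVec, dotProduct, map_sum, map_mul]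
        refine Finset.sum_eq_zero fun i _ => ?_
        have := h1 i
        simp only [Matrix.mulVec, dotProduct, map_sum, map_mul] at this
        rw [this, mul_zero]
      exact h2
    · intro l
      have h1 := congrFun (main a ha) l
      have h2 : T.det = φ TR.det := by
        simp only [T, RingHom.map_det, RingHom.mapMatrix_apply]
      have h3 : T.adjugate.mulVec (QB.mulVec a) = fun t => φ (αR t) := by
        ext t
        have h4 : T.adjugate = TR.adjugate.map φ := by
          have := RingHom.map_adjugate φ TR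
          rw [RingHom.mapMatrix_apply, RingHom.mapMatrix_apply] at this
          exact this.symm
        have h5 : QB.mulVec a = fun i => φ (QR.mulVec aR i) := by
          ext i
          rw [← hQB]
          simp only [Matrix.mulVec, dotProduct, map_sum, map_mul, Matrix.map_apply]
          rfl
        rw [h4, h5]
        simp only [αR, Matrix.mulVec, dotProduct, map_sum, map_mul, Matrix.map_apply]
      rw [h2, h3] at h1
      simp only [Pi.smul_apply, smul_eq_mul] at h1
      rw [h1]
      rfl

include hV hW hwW hωV hωw hdec hR in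
/-- `Tor`-vanishing in concrete form. -/
theorem mem_mul_augSub {v : B} (hv : v ∈ V) (hv' : v ∈ W * augSub R) :
    v ∈ V * augSub R := by
  have hRa : augSub R ≤ Subalgebra.toSubmodule R := inf_le_left
  have hRR : ∀ x ∈ V * Subalgebra.toSubmodule R, ∀ y ∈ augSub R, x * y ∈ V * augSub R := by
    intro x hx y hy
    induction hx using Submodule.mul_induction_on' with
    | mem_mul_mem a ha b hb =>
      rw [mul_assoc]
      refine Submodule.mul_mem_mul ha ⟨R.mul_mem hb hy.1, ?_⟩
      have : counit (R := k) y = 0 := hy.2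
      simp [this]
    | add x hx y hy h h' => rw [add_mul]; exact Submodule.add_mem _ h h'
  -- decompose v
  have hdecomp : ∀ z ∈ W * augSub R, ∃ a : Fin n → B, (∀ i, a i ∈ augSub R) ∧
      z - ∑ i, w i * a i ∈ V * augSub R := by
    intro z hz
    induction hz using Submodule.mul_induction_on' with
    | mem_mul_mem x hx y hy =>
      refine ⟨fun i => ω i x • y, fun i => Submodule.smul_mem _ _ hy, ?_⟩
      have : x * y - ∑ i, w i * (ω i x • y) = (x - ∑ i, ω i x • w i) * y := by
        rw [sub_mul, Finset.sum_mul]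
        congr 1
        refine Finset.sum_congr rfl fun i _ => ?_
        rw [mul_smul_comm, smul_mul_assoc]
      rw [this]
      exact Submodule.mul_mem_mul (hdec x hx) hy
    | add x hx y hy h h' =>
      obtain ⟨a, ha, ha'⟩ := h
      obtain ⟨b, hb, hb'⟩ := h'
      refine ⟨a + b, fun i => Submodule.add_mem _ (ha i) (hb i), ?_⟩
      have : x + y - ∑ i, w i * (a + b) i =
          (x - ∑ i, w i * a i) + (y - ∑ i, w i * b i) := by
        simp only [Pi.add_apply, mul_add, Finset.sum_add_distrib]; ring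
      rw [this]
      exact Submodule.add_mem _ ha' hb'
  obtain ⟨a, ha, ha'⟩ := hdecomp v hv'
  obtain ⟨m, s, κ, hsR, hs, hκ, hspec⟩ := relK_spec hV hW hwW hωV hωw hdec hR
  set z := ∑ i, w i * a i with hz
  have hvR : v ∈ V * Subalgebra.toSubmodule R := by
    have := Submodule.mul_mem_mul hv (show (1 : B) ∈ Subalgebra.toSubmodule R from R.one_mem)
    rwa [mul_one] at this
  have hzR : z ∈ V * Subalgebra.toSubmodule R := by
    have h2 := Submodule.sub_mem _ hvR
      ((mul_le_mul' (le_refl V) hRa : V * augSub R ≤ V * Subalgebra.toSubmodule R) ha')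
    have h3 : v - (v - z) = z := by ring
    rwa [h3] at h2
  have haK : a ∈ relK V w R := ⟨fun i => (ha i).1, hzR⟩
  obtain ⟨α, hα, hα'⟩ := hspec a haK fun i => (ha i).2
  have hsz : s * z ∈ V * augSub R := by
    have h2 : s * z = ∑ t, (∑ l, w l * κ t l) * α t := by
      rw [hz, Finset.mul_sum]
      have : ∀ l, s * (w l * a l) = ∑ t, w l * κ t l * α t := by
        intro l
        have h3 : s * (w l * a l) = w l * (s * a l) := by ring
        rw [h3, hα', Finset.mul_sum]
        exact Finset.sum_congr rfl fun t _ => by ring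
      simp only [this]
      rw [Finset.sum_comm]
      exact Finset.sum_congr rfl fun t _ => by rw [Finset.sum_mul]
    rw [h2]
    exact Submodule.sum_mem _ fun t _ => hRR _ (hκ t).2 _ (hα t)
  have hs1 : (1 - s) ∈ augSub R := ⟨R.sub_mem R.one_mem hsR, by simp [hs]⟩
  have hz' : z ∈ V * augSub R := by
    have h2 := Submodule.add_mem _ hsz (hRR z hzR _ hs1)
    have h3 : s * z + z * (1 - s) = z := by ring
    rwa [h3] at h2
  have h4 := Submodule.add_mem _ ha' hz'
  have h5 : v - z + z = v := by ring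
  rwa [h5] at h4

end Flat

section Final

variable {k B : Type u} [Field k] [CommRing B] [HopfAlgebra k B]

/-- A sub Hopf algebra `R` of a commutative Hopf algebra `B` with `B^+ ⊆ B R^+` is `B`. -/
theorem SubHopf.eq_top {R : Subalgebra k B} (hR : SubHopf R)
    (h : ∀ x : B, counit (R := k) x = 0 → x ∈ (⊤ : Submodule k B) * augSub R) : R = ⊤ := by
  classical
  rw [eq_top_iff]
  intro b _
  obtain ⟨V, hVf, hV, hbV⟩ := exists_stable_finset (k := k) ({1, b} : Finset B)
  -- a finite set of coefficients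
  have hfin : ∀ x : B, counit (R := k) x = 0 → ∃ s : Finset B, ∀ W : Submodule k B,
      (∀ y ∈ s, y ∈ W) → x ∈ W * augSub R := by
    intro x hx
    have hx' := h x hx
    clear hx
    induction hx' using Submodule.mul_induction_on' with
    | mem_mul_mem a _ r hr =>
      exact ⟨{a}, fun W hW => Submodule.mul_mem_mul (hW a (Finset.mem_singleton_self a)) hr⟩
    | add x _ y _ h h' =>
      obtain ⟨s, hs⟩ := h
      obtain ⟨t, ht⟩ := h'
      exact ⟨s ∪ t, fun W hW => Submodule.add_mem _
        (hs W fun y hy => hW y (Finset.mem_union_left _ hy))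
        (ht W fun y hy => hW y (Finset.mem_union_right _ hy))⟩
  choose! S hS using hfin
  -- a finite spanning set of `V ∩ ker ε`
  obtain ⟨gen, hgen⟩ := (Module.Finite.iff_fg (R := k) (N := V)).1 hVf
  let p : B → B := fun x => x - counit (R := k) x • (1 : B)
  have hp : ∀ x, counit (R := k) (p x) = 0 := fun x => by simp [p]
  obtain ⟨W₀, hW₀f, hW₀, hSW⟩ := exists_stable_finset (k := k) (gen.biUnion fun x => S (p x))
  have hWf : Module.Finite k ↥(V ⊔ W₀) := Submodule.finiteDimensional_sup _ _
  have hW := hV.sup hW₀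
  have h1V : (1 : B) ∈ V := hbV 1 (by simp)
  have hVW : ∀ v ∈ V, p v ∈ (V ⊔ W₀) * augSub R := by
    intro v hv
    rw [← hgen] at hv
    induction hv using Submodule.span_induction with
    | mem x hx =>
      refine hS _ (hp x) _ fun y hy => Submodule.mem_sup_right (hSW y ?_)
      exact Finset.mem_biUnion.2 ⟨x, hx, hy⟩
    | zero => simp [p]
    | add x y _ _ h h' =>
      have : p (x + y) = p x + p y := by simp only [p, map_add, add_smul]; ring
      rw [this]; exact Submodule.add_mem _ h h'
    | smul c x _ h =>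
      have : p (c • x) = c • p x := by simp only [p, map_smul, smul_sub, smul_smul, smul_eq_mul]
      rw [this]; exact Submodule.smul_mem _ _ h
  obtain ⟨n, w, ω, hwW, hωV, hωw, hdec⟩ := exists_compl_basis V (V ⊔ W₀)
  have hkey : ∀ v ∈ V, counit (R := k) v = 0 → v ∈ V * augSub R := by
    intro v hv hv0
    have h2 := hVW v hv
    have h3 : p v = v := by simp [p, hv0]
    rw [h3] at h2
    exact mem_mul_augSub hV hW hwW hωV hωw hdec hR hv h2
  obtain ⟨s, hsR, hs, hsV⟩ := exists_smul_mem hkey h1V
  have hs0 : s ≠ 0 := by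
    rintro rfl
    simp at hs
  exact hR.le_of_smul hV hsR hs0 hsV (hbV b (by simp))

end Final

end Pool.Agent.PoissonHopf
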