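import Pool.Agent.Lib.MP_c108b5_al.Antipode

/-!
# The Hopf algebra structure on the push-out
-/

open TensorProduct Coalgebra HopfAlgebra Bialgebra

namespace Pool.Agent.PoissonHopf

universe u

section General

variable {k B Q : Type*} [Field k] [CommRing B] [HopfAlgebra k B] [CommRing Q] [Algebra k Q]
  (D : Q →ₐ[k] Q ⊗[k] Q) (E : Q →ₐ[k] k) (ι : B →ₐ[k] Q)
  (hD : ∀ b, D (ι b) = Algebra.TensorProduct.map ι ι (comul b))
  (hE : ∀ b, E (ι b) = counit b)

include hD in
theorem gen_coassoc (b : B) :
    Algebra.TensorProduct.assoc k k k Q Q Q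
      (Algebra.TensorProduct.map D (AlgHom.id k Q) (D (ι b))) =
    Algebra.TensorProduct.map (AlgHom.id k Q) D (D (ι b)) := by
  have e1 : ∀ t : B ⊗[k] B, Algebra.TensorProduct.map D (AlgHom.id k Q)
      (Algebra.TensorProduct.map ι ι t) =
      Algebra.TensorProduct.map (Algebra.TensorProduct.map ι ι) ι (comul.rTensor B t) := by
    intro t
    induction t with
    | zero => simp
    | add s t h h' => simp only [map_add, h, h']
    | tmul a b => simp [hD]
  have e2 : ∀ t : B ⊗[k] B, Algebra.TensorProduct.map (AlgHom.id k Q) D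
      (Algebra.TensorProduct.map ι ι t) =
      Algebra.TensorProduct.map ι (Algebra.TensorProduct.map ι ι) (comul.lTensor B t) := by
    intro t
    induction t with
    | zero => simp
    | add s t h h' => simp only [map_add, h, h']
    | tmul a b => simp [hD]
  have e3 : ∀ t : (B ⊗[k] B) ⊗[k] B, Algebra.TensorProduct.assoc k k k Q Q Q
      (Algebra.TensorProduct.map (Algebra.TensorProduct.map ι ι) ι t) =
      Algebra.TensorProduct.map ι (Algebra.TensorProduct.map ι ι)
        (TensorProduct.assoc k B B B t) := by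
    intro t
    induction t with
    | zero => simp
    | add s t h h' => simp only [map_add, h, h']
    | tmul a b =>
      induction a with
      | zero => simp
      | add s t h h' => simp only [map_add, h, h', add_tmul]
      | tmul a b => simp
  rw [hD, e1, e2, e3, coassoc_apply]

include hD hE in
theorem gen_counit_left (b : B) :
    Algebra.TensorProduct.map E (AlgHom.id k Q) (D (ι b)) = 1 ⊗ₜ ι b := by
  have e1 : ∀ t : B ⊗[k] B, Algebra.TensorProduct.map E (AlgHom.id k Q)
      (Algebra.TensorProduct.map ι ι t) =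
      Algebra.TensorProduct.map (AlgHom.id k k) ι (counit.rTensor B t) := by
    intro t
    induction t with
    | zero => simp
    | add s t h h' => simp only [map_add, h, h']
    | tmul a b => simp [hE]
  rw [hD, e1, rTensor_counit_comul]; simp

include hD hE in
theorem gen_counit_right (b : B) :
    Algebra.TensorProduct.map (AlgHom.id k Q) E (D (ι b)) = ι b ⊗ₜ 1 := by
  have e1 : ∀ t : B ⊗[k] B, Algebra.TensorProduct.map (AlgHom.id k Q) E
      (Algebra.TensorProduct.map ι ι t) =
      Algebra.TensorProduct.map ι (AlgHom.id k k) (counit.lTensor B t) := by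
    intro t
    induction t with
    | zero => simp
    | add s t h h' => simp only [map_add, h, h']
    | tmul a b => simp [hE]
  rw [hD, e1, lTensor_counit_comul]; simp

end General

section PushHopf

variable {k : Type u} [Field k] {A B : PoissHopf.{u} k} (f : A ⟶ B)

/-- The push-out of a morphism of Poisson Hopf algebras with itself. -/
abbrev PQ : Type u := Q B.P (fun a => f.hom a)

theorem map_glue {C : Type*} [CommRing C] [Algebra k C] {u v : B.carrier →ₐ[k] C}
    (h : ∀ a, u (f.hom a) = v (f.hom a)) (a : A.carrier) :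
    Algebra.TensorProduct.map u u (comul (R := k) (f.hom a)) =
      Algebra.TensorProduct.map v v (comul (R := k) (f.hom a)) := by
  have h1 : comul (R := k) (f.hom a) =
      TensorProduct.map (f.hom : A.carrier →ₗ[k] B.carrier) (f.hom : A.carrier →ₗ[k] B.carrier)
        (comul (R := k) a) := (CoalgHomClass.map_comp_comul_apply f.hom a).symm
  rw [h1]
  generalize (comul (R := k) a) = t
  induction t with
  | zero => simp
  | add s t h h' => simp only [map_add, h, h']
  | tmul a b => simp [h]

theorem isPoisson_comul (H : PoissHopf.{u} k) :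
    IsPoisson H.P (H.P.tensor H.P) (comulAlgHom k H.carrier) := fun a b => H.comul_br a b

/-- The comultiplication of the push-out. -/
noncomputable def pqComul : PQ f →ₐ[k] PQ f ⊗[k] PQ f :=
  Q.lift (PR := (Q.bracket (P := B.P) (f := fun a => f.hom a)).tensor Q.bracket)
    (u := (Algebra.TensorProduct.map Q.i1 Q.i1).comp (comulAlgHom k B.carrier))
    (v := (Algebra.TensorProduct.map Q.i2 Q.i2).comp (comulAlgHom k B.carrier))
    ((isPoisson_map Q.isPoisson_i1 Q.isPoisson_i1).comp (isPoisson_comul B))
    ((isPoisson_map Q.isPoisson_i2 Q.isPoisson_i2).comp (isPoisson_comul B))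
    (map_glue f Q.i1_glue)

theorem pqComul_i1 (b : B.carrier) :
    pqComul f (Q.i1 b) = Algebra.TensorProduct.map Q.i1 Q.i1 (comul (R := k) b) := rfl

theorem pqComul_i2 (b : B.carrier) :
    pqComul f (Q.i2 b) = Algebra.TensorProduct.map Q.i2 Q.i2 (comul (R := k) b) := rfl

theorem isPoisson_pqComul :
    IsPoisson Q.bracket (Q.bracket.tensor Q.bracket) (pqComul f) := Q.isPoisson_lift _ _ _

/-- The counit of the push-out. -/
noncomputable def pqCounit : PQ f →ₐ[k] k :=
  Q.lift (PR := PoissonBracket.zero k k) (u := counitAlgHom k B.carrier)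
    (v := counitAlgHom k B.carrier) (fun a b => B.counit_br a b) (fun a b => B.counit_br a b)
    (fun _ => rfl)

theorem pqCounit_i1 (b : B.carrier) : pqCounit f (Q.i1 b) = counit (R := k) b := rfl

theorem pqCounit_i2 (b : B.carrier) : pqCounit f (Q.i2 b) = counit (R := k) b := rfl

theorem isPoisson_pqCounit :
    IsPoisson Q.bracket (PoissonBracket.zero k k) (pqCounit f) := Q.isPoisson_lift _ _ _

theorem isPoisson_antipode (H : PoissHopf.{u} k) :
    IsPoisson H.P H.P.neg (antipodeAlgHom k H.carrier) := fun a b =>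
  antipode_br H.P H.comul_br H.counit_br a b

theorem IsPoisson.neg {A B : Type*} [CommRing A] [Algebra k A] [CommRing B] [Algebra k B]
    {P : PoissonBracket k A} {P' : PoissonBracket k B} {φ : A →ₐ[k] B} (h : IsPoisson P P' φ) :
    IsPoisson P.neg P'.neg φ := fun a b => by simp [h a b]

/-- The antipode of the push-out. -/
noncomputable def pqAntipode : PQ f →ₐ[k] PQ f :=
  Q.lift (PR := (Q.bracket (P := B.P) (f := fun a => f.hom a)).neg)
    (u := Q.i1.comp (antipodeAlgHom k B.carrier))
    (v := Q.i2.comp (antipodeAlgHom k B.carrier))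
    (Q.isPoisson_i1.neg.comp (isPoisson_antipode B))
    (Q.isPoisson_i2.neg.comp (isPoisson_antipode B))
    (fun a => by
      change Q.i1 (antipode k (f.hom a)) = Q.i2 (antipode k (f.hom a))
      rw [← hom_antipode]
      exact Q.i1_glue _)

theorem pqAntipode_i1 (b : B.carrier) :
    pqAntipode f (Q.i1 b) = Q.i1 (antipode k b) := rfl

theorem pqAntipode_i2 (b : B.carrier) :
    pqAntipode f (Q.i2 b) = Q.i2 (antipode k b) := rfl

theorem pqAntipode_br (x y : PQ f) :
    pqAntipode f (Q.bracket.br x y) = - Q.bracket.br (pqAntipode f x) (pqAntipode f y) :=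
  Q.isPoisson_lift _ _ _ x y

noncomputable instance : Bialgebra k (PQ f) :=
  Bialgebra.ofAlgHom (pqComul f) (pqCounit f)
    (by
      refine Q.hom_ext (PR := Q.bracket.tensor (Q.bracket.tensor Q.bracket)) ?_ ?_ ?_ ?_
      · exact (isPoisson_assoc _ _ _).comp
          ((isPoisson_map (isPoisson_pqComul f) (isPoisson_id _)).comp (isPoisson_pqComul f))
      · exact (isPoisson_map (isPoisson_id _) (isPoisson_pqComul f)).comp (isPoisson_pqComul f)
      · ext b; exact gen_coassoc (pqComul f) Q.i1 (pqComul_i1 f) b
      · ext b; exact gen_coassoc (pqComul f) Q.i2 (pqComul_i2 f) b)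
    (by
      refine Q.hom_ext (PR := (PoissonBracket.zero k k).tensor Q.bracket) ?_ ?_ ?_ ?_
      · exact (isPoisson_map (isPoisson_pqCounit f) (isPoisson_id _)).comp (isPoisson_pqComul f)
      · exact isPoisson_includeRight _ _
      · ext b; exact gen_counit_left (pqComul f) (pqCounit f) Q.i1 (pqComul_i1 f)
          (pqCounit_i1 f) b
      · ext b; exact gen_counit_left (pqComul f) (pqCounit f) Q.i2 (pqComul_i2 f)
          (pqCounit_i2 f) b)
    (by
      refine Q.hom_ext (PR := Q.bracket.tensor (PoissonBracket.zero k k)) ?_ ?_ ?_ ?_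
      · exact (isPoisson_map (isPoisson_id _) (isPoisson_pqCounit f)).comp (isPoisson_pqComul f)
      · exact isPoisson_includeLeft _ _
      · ext b; exact gen_counit_right (pqComul f) (pqCounit f) Q.i1 (pqComul_i1 f)
          (pqCounit_i1 f) b
      · ext b; exact gen_counit_right (pqComul f) (pqCounit f) Q.i2 (pqComul_i2 f)
          (pqCounit_i2 f) b)


theorem pq_antipode_left (x : PQ f) :
    Algebra.TensorProduct.lift (pqAntipode f) (AlgHom.id k (PQ f)) (fun _ _ => Commute.all _ _)
      (pqComul f x) = algebraMap k (PQ f) (pqCounit f x) := by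
  have gen : ∀ (ι : B.carrier →ₐ[k] PQ f) (b : B.carrier)
      (_ : ∀ b, pqComul f (ι b) = Algebra.TensorProduct.map ι ι (comul (R := k) b))
      (_ : ∀ b, pqCounit f (ι b) = counit (R := k) b)
      (_ : ∀ b, pqAntipode f (ι b) = ι (antipode k b)),
      Algebra.TensorProduct.lift (pqAntipode f) (AlgHom.id k (PQ f)) (fun _ _ => Commute.all _ _)
      (pqComul f (ι b)) = algebraMap k (PQ f) (pqCounit f (ι b)) := by
    intro ι b h1 h2 h3
    rw [h1, h2, ← ι.commutes, ← sum_antipode_mul_eq_algebraMap_counit (ℛ k b), ← (ℛ k b).eq]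
    simp [h3]
  induction x using Q.induction with
  | h1 b => exact gen Q.i1 b (pqComul_i1 f) (pqCounit_i1 f) (pqAntipode_i1 f)
  | h2 b => exact gen Q.i2 b (pqComul_i2 f) (pqCounit_i2 f) (pqAntipode_i2 f)
  | hadd x y hx hy => simp only [map_add, hx, hy]
  | hmul x y hx hy => simp only [map_mul, hx, hy]
  | hneg x hx => simp only [map_neg, hx]
  | hbr x y hx hy =>
    have e0 : pqCounit f (Q.bracket.br x y) = 0 := isPoisson_pqCounit f x y
    rw [e0, map_zero, isPoisson_pqComul f x y]
    obtain ⟨s, hs⟩ := TensorProduct.exists_finset (pqComul f x)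
    obtain ⟨t, ht⟩ := TensorProduct.exists_finset (pqComul f y)
    rw [hs] at hx ⊢
    rw [ht] at hy ⊢
    simp only [map_sum, Algebra.TensorProduct.lift_tmul, AlgHom.id_apply] at hx hy
    have := swap_sum Q.bracket (pqAntipode f).toLinearMap s (fun i => i.1) (fun i => i.2) t
      (fun i => i.1) (fun i => i.2) _ _ hx hy
    simp only [AlgHom.toLinearMap_apply] at this
    simp only [map_sum, LinearMap.sum_apply, PoissonBracket.tensor_tmul, map_add,
      Algebra.TensorProduct.lift_tmul, AlgHom.id_apply, pqAntipode_br, map_mul,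
      Finset.sum_add_distrib]
    rw [Finset.sum_comm (s := t), Finset.sum_comm (s := t), this, ← Finset.sum_add_distrib]
    refine Finset.sum_eq_zero fun i _ => ?_
    rw [← Finset.sum_add_distrib]
    exact Finset.sum_eq_zero fun j _ => by ring

theorem pq_antipode_right (x : PQ f) :
    Algebra.TensorProduct.lift (AlgHom.id k (PQ f)) (pqAntipode f) (fun _ _ => Commute.all _ _)
      (pqComul f x) = algebraMap k (PQ f) (pqCounit f x) := by
  have gen : ∀ (ι : B.carrier →ₐ[k] PQ f) (b : B.carrier)
      (_ : ∀ b, pqComul f (ι b) = Algebra.TensorProduct.map ι ι (comul (R := k) b))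
      (_ : ∀ b, pqCounit f (ι b) = counit (R := k) b)
      (_ : ∀ b, pqAntipode f (ι b) = ι (antipode k b)),
      Algebra.TensorProduct.lift (AlgHom.id k (PQ f)) (pqAntipode f) (fun _ _ => Commute.all _ _)
      (pqComul f (ι b)) = algebraMap k (PQ f) (pqCounit f (ι b)) := by
    intro ι b h1 h2 h3
    rw [h1, h2, ← ι.commutes, ← sum_mul_antipode_eq_algebraMap_counit (ℛ k b), ← (ℛ k b).eq]
    simp [h3]
  induction x using Q.induction with
  | h1 b => exact gen Q.i1 b (pqComul_i1 f) (pqCounit_i1 f) (pqAntipode_i1 f)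
  | h2 b => exact gen Q.i2 b (pqComul_i2 f) (pqCounit_i2 f) (pqAntipode_i2 f)
  | hadd x y hx hy => simp only [map_add, hx, hy]
  | hmul x y hx hy => simp only [map_mul, hx, hy]
  | hneg x hx => simp only [map_neg, hx]
  | hbr x y hx hy =>
    have e0 : pqCounit f (Q.bracket.br x y) = 0 := isPoisson_pqCounit f x y
    rw [e0, map_zero, isPoisson_pqComul f x y]
    obtain ⟨s, hs⟩ := TensorProduct.exists_finset (pqComul f x)
    obtain ⟨t, ht⟩ := TensorProduct.exists_finset (pqComul f y)
    rw [hs] at hx ⊢
    rw [ht] at hy ⊢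
    simp only [map_sum, Algebra.TensorProduct.lift_tmul, AlgHom.id_apply] at hx hy
    simp only [mul_comm _ ((pqAntipode f) _)] at hx hy
    have := swap_sum Q.bracket (pqAntipode f).toLinearMap s (fun i => i.2) (fun i => i.1) t
      (fun i => i.2) (fun i => i.1) _ _ hx hy
    simp only [AlgHom.toLinearMap_apply] at this
    simp only [map_sum, LinearMap.sum_apply, PoissonBracket.tensor_tmul, map_add,
      Algebra.TensorProduct.lift_tmul, AlgHom.id_apply, pqAntipode_br, map_mul,
      Finset.sum_add_distrib]
    rw [Finset.sum_comm (s := t), Finset.sum_comm (s := t)]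
    have h2 : ∑ i ∈ s, ∑ j ∈ t, Q.bracket.br i.1 j.1 * (pqAntipode f i.2 * pqAntipode f j.2) =
        ∑ i ∈ s, ∑ j ∈ t, pqAntipode f i.2 * pqAntipode f j.2 * Q.bracket.br i.1 j.1 :=
      Finset.sum_congr rfl fun i _ => Finset.sum_congr rfl fun j _ => mul_comm _ _
    rw [h2, this, ← Finset.sum_add_distrib]
    refine Finset.sum_eq_zero fun i _ => ?_
    rw [← Finset.sum_add_distrib]
    exact Finset.sum_eq_zero fun j _ => by ring

noncomputable instance : HopfAlgebra k (PQ f) :=
  HopfAlgebra.ofAlgHom (pqAntipode f)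
    (AlgHom.ext fun x => pq_antipode_left f x)
    (AlgHom.ext fun x => pq_antipode_right f x)

/-- The push-out as a Poisson Hopf algebra. -/
noncomputable def pqObj : PoissHopf.{u} k where
  carrier := PQ f
  P := Q.bracket
  comul_br := isPoisson_pqComul f
  counit_br := isPoisson_pqCounit f

/-- The first inclusion as a morphism. -/
noncomputable def pqI1 : B ⟶ pqObj f where
  hom := BialgHom.ofAlgHom Q.i1 (AlgHom.ext fun b => pqCounit_i1 f b)
    (AlgHom.ext fun b => (pqComul_i1 f b).symm)
  map_br := Q.isPoisson_i1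

/-- The second inclusion as a morphism. -/
noncomputable def pqI2 : B ⟶ pqObj f where
  hom := BialgHom.ofAlgHom Q.i2 (AlgHom.ext fun b => pqCounit_i2 f b)
    (AlgHom.ext fun b => (pqComul_i2 f b).symm)
  map_br := Q.isPoisson_i2

/-- If `f` is an epimorphism then Poisson algebra maps out of its target which agree on the image
of `f` are equal. -/
theorem algHom_eq_of_epi (hf : CategoryTheory.Epi f) {R : Type*} [CommRing R] [Algebra k R]
    (PR : PoissonBracket k R) {u v : B.carrier →ₐ[k] R} (hu : IsPoisson B.P PR u)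
    (hv : IsPoisson B.P PR v) (huv : ∀ a, u (f.hom a) = v (f.hom a)) : u = v := by
  have h1 : CategoryTheory.CategoryStruct.comp f (pqI1 f) =
      CategoryTheory.CategoryStruct.comp f (pqI2 f) := by
    apply PoissHopf.Hom.ext
    ext a
    exact Q.i1_glue (f := fun a => f.hom a) (P := B.P) a
  have h2 : pqI1 f = pqI2 f := hf.left_cancellation _ _ h1
  ext b
  have h3 : (Q.i1 b : PQ f) = Q.i2 b := by
    have := congrArg (fun F : B ⟶ pqObj f => F.hom b) h2
    exact this
  have h4 := congrArg (Q.lift (P := B.P) (f := fun a => f.hom a) hu hv huv) h3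
  exact h4

end PushHopf

end Pool.Agent.PoissonHopf
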