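import Pool.Agent.Lib.MP_c108b5_al.HopfQ
import Pool.Agent.Lib.MP_c108b5_al.PBW

/-!
# The infinitesimal part: the augmentation ideal is generated modulo its square by the image
-/

open TensorProduct Coalgebra HopfAlgebra Bialgebra

namespace Pool.Agent.PoissonHopf

universe u

/-- Square-zero extension of `k` by `G`. -/
@[ext]
structure SqZ (k G : Type u) : Type u where
  /-- scalar part -/
  c : k
  /-- nilpotent part -/
  v : G

namespace SqZ

variable {k G : Type u} [Field k] [AddCommGroup G] [Module k G]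

instance : Add (SqZ k G) := ⟨fun x y => ⟨x.c + y.c, x.v + y.v⟩⟩
instance : Mul (SqZ k G) := ⟨fun x y => ⟨x.c * y.c, x.c • y.v + y.c • x.v⟩⟩
instance : Neg (SqZ k G) := ⟨fun x => ⟨-x.c, -x.v⟩⟩
instance : Zero (SqZ k G) := ⟨⟨0, 0⟩⟩
instance : One (SqZ k G) := ⟨⟨1, 0⟩⟩

omit [Module k G] in
@[simp] theorem add_c (x y : SqZ k G) : (x + y).c = x.c + y.c := rfl
omit [Module k G] in
@[simp] theorem add_v (x y : SqZ k G) : (x + y).v = x.v + y.v := rfl
@[simp] theorem mul_c (x y : SqZ k G) : (x * y).c = x.c * y.c := rfl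
@[simp] theorem mul_v (x y : SqZ k G) : (x * y).v = x.c • y.v + y.c • x.v := rfl
omit [Module k G] in
@[simp] theorem neg_c (x : SqZ k G) : (-x).c = -x.c := rfl
omit [Module k G] in
@[simp] theorem neg_v (x : SqZ k G) : (-x).v = -x.v := rfl
omit [Module k G] in
@[simp] theorem zero_c : (0 : SqZ k G).c = 0 := rfl
omit [Module k G] in
@[simp] theorem zero_v : (0 : SqZ k G).v = 0 := rfl
omit [Module k G] in
@[simp] theorem one_c : (1 : SqZ k G).c = 1 := rfl
omit [Module k G] in
@[simp] theorem one_v : (1 : SqZ k G).v = 0 := rfl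

instance : CommRing (SqZ k G) where
  add_assoc x y z := by ext <;> simp [add_assoc]
  zero_add x := by ext <;> simp
  add_zero x := by ext <;> simp
  add_comm x y := by ext <;> simp [add_comm]
  left_distrib x y z := by ext <;> simp [mul_add]; module
  right_distrib x y z := by ext <;> simp [add_mul]; module
  zero_mul x := by ext <;> simp
  mul_zero x := by ext <;> simp
  mul_assoc x y z := by ext <;> simp [mul_assoc]; module
  one_mul x := by ext <;> simp
  mul_one x := by ext <;> simp
  neg_add_cancel x := by ext <;> simp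
  mul_comm x y := by
    ext
    · simp [mul_comm]
    · simp [add_comm]
  nsmul := nsmulRec
  zsmul := zsmulRec
  npow := npowRec

instance : Algebra k (SqZ k G) := RingHom.toAlgebra
  { toFun := fun c => ⟨c, 0⟩
    map_one' := rfl
    map_zero' := rfl
    map_mul' := fun a b => by ext <;> simp
    map_add' := fun a b => by ext <;> simp }

@[simp] theorem smul_c (a : k) (x : SqZ k G) : (a • x).c = a * x.c := rfl
@[simp] theorem smul_v (a : k) (x : SqZ k G) : (a • x).v = a • x.v := by
  have : (a • x).v = a • x.v + x.c • 0 := rfl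
  rw [this, smul_zero, add_zero]

/-- The Poisson bracket of a square-zero extension by a Lie algebra. -/
def bracket (γ : G →ₗ[k] G →ₗ[k] G) (hself : ∀ a, γ a a = 0)
    (hjac : ∀ a b c, γ a (γ b c) + γ b (γ c a) + γ c (γ a b) = 0) :
    PoissonBracket k (SqZ k G) where
  br := LinearMap.mk₂ k (fun x y => ⟨0, γ x.v y.v⟩)
    (fun x y z => by ext <;> simp) (fun c x y => by ext <;> simp)
    (fun x y z => by ext <;> simp) (fun c x y => by ext <;> simp)
  br_self a := by ext <;> simp [hself]
  jacobi a b c := by ext <;> simp [hjac]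
  leibniz a b c := by
    ext
    · simp
    · simp [add_comm]

end SqZ

section Infinitesimal

variable {k : Type u} [Field k] {A B : PoissHopf.{u} k} (f : A ⟶ B)

/-- The augmentation ideal. -/
noncomputable abbrev aug (k : Type u) [Field k] (H : Type u) [CommRing H] [HopfAlgebra k H] : Ideal H :=
  RingHom.ker (counitAlgHom k H)

theorem mem_aug {H : Type u} [CommRing H] [HopfAlgebra k H] {x : H} :
    x ∈ aug k H ↔ counit (R := k) x = 0 := Iff.rfl

/-- The square of the augmentation ideal as a subspace. -/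
noncomputable def augSq (k : Type u) [Field k] (H : Type u) [CommRing H] [HopfAlgebra k H] :
    Submodule k H := ((aug k H) ^ 2).restrictScalars k

theorem br_mem_aug (H : PoissHopf.{u} k) (a b : H.carrier) : H.P.br a b ∈ aug k H.carrier :=
  H.counit_br a b

theorem br_augSq (H : PoissHopf.{u} k) (a : H.carrier) {w : H.carrier}
    (hw : w ∈ augSq k H.carrier) : H.P.br a w ∈ augSq k H.carrier := by
  have hw' : w ∈ (aug k H.carrier) ^ 2 := hw
  change H.P.br a w ∈ (aug k H.carrier) ^ 2
  rw [pow_two] at hw' ⊢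
  clear hw
  induction hw' using Submodule.mul_induction_on' with
  | mem_mul_mem x hx y hy =>
    rw [H.P.leibniz]
    exact Ideal.add_mem _ (Ideal.mul_mem_mul (br_mem_aug H a x) hy)
      (Ideal.mul_mem_mul hx (br_mem_aug H a y))
  | add x hx y hy h h' => rw [map_add]; exact Ideal.add_mem _ h h'

/-- The subspace `k + (B^+)^2`. -/
noncomputable def wSub (k : Type u) [Field k] (H : Type u) [CommRing H] [HopfAlgebra k H] :
    Submodule k H := Submodule.span k {1} ⊔ augSq k H

theorem br_wSub (H : PoissHopf.{u} k) (a : H.carrier) {w : H.carrier}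
    (hw : w ∈ wSub k H.carrier) : H.P.br a w ∈ augSq k H.carrier := by
  obtain ⟨y, hy, z, hz, rfl⟩ := Submodule.mem_sup.mp hw
  obtain ⟨c, rfl⟩ := Submodule.mem_span_singleton.mp hy
  rw [map_add, map_smul, H.P.br_one, smul_zero, zero_add]
  exact br_augSq H a hz

theorem mul_mod (H : Type u) [CommRing H] [HopfAlgebra k H] (b c : H) :
    (b * c - (counit (R := k) b • c + counit (R := k) c • b)) ∈ wSub k H := by
  have h1 : (b - algebraMap k H (counit b)) * (c - algebraMap k H (counit c)) ∈ augSq k H := by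
    change _ ∈ (aug k H) ^ 2
    rw [pow_two]
    exact Ideal.mul_mem_mul (mem_aug.2 (by simp)) (mem_aug.2 (by simp))
  have h2 : (counit (R := k) b * counit (R := k) c) • (1 : H) ∈ Submodule.span k {(1 : H)} :=
    Submodule.smul_mem _ _ (Submodule.mem_span_singleton_self 1)
  have h3 : b * c - (counit (R := k) b • c + counit (R := k) c • b) =
      -((counit (R := k) b * counit (R := k) c) • (1 : H)) +
        (b - algebraMap k H (counit b)) * (c - algebraMap k H (counit c)) := by
    simp only [Algebra.smul_def, map_mul]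
    ring
  rw [h3]
  exact Submodule.add_mem _ (Submodule.neg_mem _ (Submodule.mem_sup_left h2))
    (Submodule.mem_sup_right h1)

/-- The quotient Lie bracket. -/
noncomputable def quotBr (H : PoissHopf.{u} k) :
    (H.carrier ⧸ wSub k H.carrier) →ₗ[k] (H.carrier ⧸ wSub k H.carrier) →ₗ[k]
      (H.carrier ⧸ wSub k H.carrier) :=
  (wSub k H.carrier).liftQ
    ((wSub k H.carrier).liftQ (H.P.br.compr₂ (wSub k H.carrier).mkQ).flip (by
      intro w hw
      rw [LinearMap.mem_ker]
      ext a
      simp only [LinearMap.flip_apply, LinearMap.compr₂_apply, Submodule.mkQ_apply,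
        LinearMap.zero_apply, Submodule.Quotient.mk_eq_zero]
      exact Submodule.mem_sup_right (br_wSub H a hw))).flip (by
      intro w hw
      rw [LinearMap.mem_ker]
      ext a
      simp only [LinearMap.comp_apply, LinearMap.flip_apply, Submodule.liftQ_apply,
        LinearMap.compr₂_apply, Submodule.mkQ_apply,
        LinearMap.zero_apply, Submodule.Quotient.mk_eq_zero]
      rw [H.P.antisymm]
      exact Submodule.neg_mem _ (Submodule.mem_sup_right (br_wSub H a hw)))

theorem quotBr_mk (H : PoissHopf.{u} k) (a b : H.carrier) :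
    quotBr H ((wSub k H.carrier).mkQ a) ((wSub k H.carrier).mkQ b) =
      (wSub k H.carrier).mkQ (H.P.br a b) := rfl

/-- The algebra map to a square-zero extension attached to a linear map on the quotient. -/
noncomputable def toSqZ (H : PoissHopf.{u} k) {G : Type u} [AddCommGroup G] [Module k G]
    (φ : (H.carrier ⧸ wSub k H.carrier) →ₗ[k] G) : H.carrier →ₐ[k] SqZ k G where
  toFun b := ⟨counit b, φ ((wSub k H.carrier).mkQ b)⟩
  map_one' := by
    have : (wSub k H.carrier).mkQ (1 : H.carrier) = 0 := by
      rw [Submodule.mkQ_apply, Submodule.Quotient.mk_eq_zero]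
      exact Submodule.mem_sup_left (Submodule.mem_span_singleton_self 1)
    rw [this]; ext <;> simp
  map_zero' := by ext <;> simp
  map_mul' b c := by
    have : (wSub k H.carrier).mkQ (b * c) = counit (R := k) b • (wSub k H.carrier).mkQ c +
        counit (R := k) c • (wSub k H.carrier).mkQ b := by
      rw [← map_smul, ← map_smul, ← map_add]
      exact (Submodule.Quotient.eq _).2 (mul_mod H.carrier b c)
    rw [this]; ext <;> simp
  map_add' b c := by ext <;> simp
  commutes' c := by
    have : (wSub k H.carrier).mkQ (algebraMap k H.carrier c) = 0 := by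
      rw [Submodule.mkQ_apply, Submodule.Quotient.mk_eq_zero, Algebra.algebraMap_eq_smul_one]
      exact Submodule.mem_sup_left
        (Submodule.smul_mem _ _ (Submodule.mem_span_singleton_self 1))
    rw [this]; ext
    · simp; rfl
    · simp; rfl

/-- Step 2: if `f` is an epimorphism then `B` is the sum of the image of `f` and of `(B^+)^2`. -/
theorem range_sup_augSq (hf : CategoryTheory.Epi f) (x : B.carrier) :
    x ∈ LinearMap.range (f.hom : A.carrier →ₗ[k] B.carrier) ⊔ augSq k B.carrier := by
  by_contra hx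
  set N := LinearMap.range (f.hom : A.carrier →ₗ[k] B.carrier) ⊔ augSq k B.carrier with hN
  set W := wSub k B.carrier with hW
  have hWN : W ≤ N := by
    refine sup_le ?_ le_sup_right
    rw [Submodule.span_singleton_le_iff_mem]
    exact Submodule.mem_sup_left ⟨1, map_one f.hom⟩
  have hNbr : ∀ a ∈ N, ∀ c ∈ N, B.P.br a c ∈ N := by
    intro a ha c hc
    obtain ⟨a1, ⟨a2, rfl⟩, a3, ha3, rfl⟩ := Submodule.mem_sup.mp ha
    obtain ⟨c1, ⟨c2, rfl⟩, c3, hc3, rfl⟩ := Submodule.mem_sup.mp hc
    have h1 : B.P.br (f.hom a2) (f.hom c2) ∈ N :=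
      Submodule.mem_sup_left ⟨A.P.br a2 c2, f.map_br a2 c2⟩
    have h2 : ∀ y, B.P.br y c3 ∈ N := fun y => Submodule.mem_sup_right (br_augSq B y hc3)
    have h3 : ∀ y, B.P.br a3 y ∈ N := fun y => by
      rw [B.P.antisymm]
      exact Submodule.neg_mem _ (Submodule.mem_sup_right (br_augSq B y ha3))
    simp only [map_add, LinearMap.add_apply]
    exact Submodule.add_mem _ (Submodule.add_mem _ h1 (h3 _))
      (Submodule.add_mem _ (h2 _) (h2 _))
  have hq : ∀ a b, quotBr B (W.mkQ a) (W.mkQ b) = W.mkQ (B.P.br a b) := fun a b =>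
    quotBr_mk B a b
  obtain ⟨E, _, _, φ, ψ, hφ, hψ, hM, hne⟩ := exists_pair (quotBr B)
    (by
      intro a
      obtain ⟨a, rfl⟩ := W.mkQ_surjective a
      rw [quotBr_mk, B.P.br_self, map_zero])
    (by
      intro a b c
      obtain ⟨a, rfl⟩ := W.mkQ_surjective a
      obtain ⟨b, rfl⟩ := W.mkQ_surjective b
      obtain ⟨c, rfl⟩ := W.mkQ_surjective c
      rw [hq, hq, hq, hq, hq, hq, ← map_add, ← map_add, B.P.jacobi, map_zero])
    (N.map W.mkQ)
    (by
      rintro _ ⟨a, ha, rfl⟩ _ ⟨c, hc, rfl⟩
      exact ⟨B.P.br a c, hNbr a ha c hc, rfl⟩)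
    (W.mkQ x)
    (by
      rintro ⟨n, hn, h⟩
      apply hx
      have h1 : n - x ∈ W := (Submodule.Quotient.eq _).1 h
      have h2 := N.sub_mem hn (hWN h1)
      simpa using h2)
  let γ : Module.End k E →ₗ[k] Module.End k E →ₗ[k] Module.End k E :=
    LinearMap.mul k (Module.End k E) - (LinearMap.mul k (Module.End k E)).flip
  have hγ : ∀ a b, γ a b = a * b - b * a := fun a b => rfl
  let PR := SqZ.bracket γ (fun a => by rw [hγ, sub_self])
    (fun a b c => by simp only [hγ]; noncomm_ring)
  have hP : ∀ χ : (B.carrier ⧸ W) →ₗ[k] Module.End k E,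
      (∀ a c, χ (quotBr B a c) = χ a * χ c - χ c * χ a) → IsPoisson B.P PR (toSqZ B χ) := by
    intro χ hχ a b
    refine SqZ.ext ?_ ?_
    · exact B.counit_br a b
    · change χ (W.mkQ (B.P.br a b)) = γ (χ (W.mkQ a)) (χ (W.mkQ b))
      rw [← quotBr_mk, hχ, hγ]
  have huv := algHom_eq_of_epi f hf PR (hP φ hφ) (hP ψ hψ) (fun a => by
    refine SqZ.ext rfl ?_
    exact hM _ ⟨f.hom a, Submodule.mem_sup_left ⟨a, rfl⟩, rfl⟩)
  apply hne
  have h4 := congrArg (fun F : B.carrier →ₐ[k] SqZ k (Module.End k E) => (F x).v) huv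
  exact h4

end Infinitesimal

end Pool.Agent.PoissonHopf
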