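import Pool.Agent.Lib.MP_c108b5_al.Infinitesimal

/-!
# The kernel is trivial: `B^+ = B A^+` for an epimorphism `A → B`
-/

open TensorProduct Coalgebra HopfAlgebra Bialgebra

namespace Pool.Agent.PoissonHopf

universe u

section Derivation

variable {k : Type u} [Field k] {H C : Type u} [CommRing H] [HopfAlgebra k H] [CommRing C]
  [Algebra k C] (π : H →ₐ[k] C) (d : H →ₗ[k] C)
  (hd : ∀ a b, d (a * b) = π a * d b + π b * d a)

/-- The left-invariant part of a derivation. -/
noncomputable def invPart : H →ₗ[k] C :=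
  (WithConv.toConv (π.toLinearMap ∘ₗ antipode k) * WithConv.toConv d :
    WithConv (H →ₗ[k] C)).ofConv

theorem invPart_apply (x : H) : invPart π d x =
    ∑ i ∈ (ℛ k x).index, π (antipode k ((ℛ k x).left i)) * d ((ℛ k x).right i) :=
  (ℛ k x).convMul_apply (WithConv.toConv (π.toLinearMap ∘ₗ antipode k)) (WithConv.toConv d)

theorem invPart_repr {ι : Type*} {x : H} (r : Coalgebra.Repr k x ι) : invPart π d x =
    ∑ i ∈ r.index, π (antipode k (r.left i)) * d (r.right i) :=
  r.convMul_apply (WithConv.toConv (π.toLinearMap ∘ₗ antipode k)) (WithConv.toConv d)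

theorem deriv_eq_zero (h : invPart π d = 0) : d = 0 := by
  have h1 : (WithConv.toConv (π.toLinearMap ∘ₗ antipode k) * WithConv.toConv d :
      WithConv (H →ₗ[k] C)) = 0 := congrArg WithConv.toConv h
  have h2 : (WithConv.toConv π.toLinearMap * WithConv.toConv (π.toLinearMap ∘ₗ antipode k) :
      WithConv (H →ₗ[k] C)) = 1 := by
    ext x
    rw [(ℛ k x).convMul_apply, LinearMap.convOne_apply, ← π.commutes,
      ← sum_mul_antipode_eq_algebraMap_counit (ℛ k x), map_sum]
    exact Finset.sum_congr rfl fun i _ => (map_mul π _ _).symm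
  have h3 : (WithConv.toConv d : WithConv (H →ₗ[k] C)) = 0 := by
    rw [← one_mul (WithConv.toConv d), ← h2, mul_assoc, h1, mul_zero]
  exact WithConv.toConv_injective h3

include hd in
theorem invPart_mul (x y : H) : invPart π d (x * y) =
    algebraMap k C (counit x) * invPart π d y + algebraMap k C (counit y) * invPart π d x := by
  have hx : algebraMap k C (counit x) = ∑ i ∈ (ℛ k x).index,
      π (antipode k ((ℛ k x).left i)) * π ((ℛ k x).right i) := by
    rw [← π.commutes, ← sum_antipode_mul_eq_algebraMap_counit (ℛ k x), map_sum]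
    exact Finset.sum_congr rfl fun i _ => map_mul π _ _
  have hy : algebraMap k C (counit y) = ∑ i ∈ (ℛ k y).index,
      π (antipode k ((ℛ k y).left i)) * π ((ℛ k y).right i) := by
    rw [← π.commutes, ← sum_antipode_mul_eq_algebraMap_counit (ℛ k y), map_sum]
    exact Finset.sum_congr rfl fun i _ => map_mul π _ _
  have hxy : invPart π d (x * y) = ∑ i ∈ (ℛ k x).index, ∑ j ∈ (ℛ k y).index,
      π (antipode k ((ℛ k x).left i * (ℛ k y).left j)) *
        d ((ℛ k x).right i * (ℛ k y).right j) := by
    have e0 : invPart π d (x * y) = LinearMap.mul' k C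
      (TensorProduct.map (π.toLinearMap ∘ₗ antipode k) d (comul (x * y))) := rfl
    rw [e0, comul_mul]
    nth_rewrite 1 [← (ℛ k x).eq]
    nth_rewrite 1 [← (ℛ k y).eq]
    simp only [Finset.sum_mul_sum, Algebra.TensorProduct.tmul_mul_tmul, map_sum, map_tmul,
      LinearMap.comp_apply, AlgHom.toLinearMap_apply, LinearMap.mul'_apply]
  rw [hxy, hx, hy, invPart_apply, invPart_apply,
    Finset.sum_mul_sum, Finset.sum_mul_sum, Finset.sum_comm (s := (ℛ k y).index),
    ← Finset.sum_add_distrib]
  simp only [antipode_mul_distrib, hd, map_mul]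
  refine Finset.sum_congr rfl fun i _ => ?_
  rw [← Finset.sum_add_distrib]
  refine Finset.sum_congr rfl fun j _ => ?_
  ring

end Derivation

section Kernel

variable {k : Type u} [Field k] {A B : PoissHopf.{u} k} (f : A ⟶ B)

/-- The ideal of `B` generated by the image of the augmentation ideal of `A`. -/
noncomputable def kerIdeal : Ideal B.carrier :=
  Ideal.map (f.hom : A.carrier →ₐ[k] B.carrier) (aug k A.carrier)

theorem mem_kerIdeal {a : A.carrier} (ha : counit (R := k) a = 0) : f.hom a ∈ kerIdeal f :=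
  Ideal.mem_map_of_mem (f.hom : A.carrier →ₐ[k] B.carrier) ha

theorem br_mem_kerIdeal (hf : CategoryTheory.Epi f) (a : A.carrier) (b : B.carrier) :
    B.P.br b (f.hom a) ∈ kerIdeal f := by
  let I := kerIdeal f
  let π : B.carrier →ₐ[k] B.carrier ⧸ I := Ideal.Quotient.mkₐ k I
  let d : B.carrier →ₗ[k] B.carrier ⧸ I := π.toLinearMap ∘ₗ B.P.br.flip (f.hom a)
  have hd : ∀ x y, d (x * y) = π x * d y + π y * d x := by
    intro x y
    change π (B.P.br (x * y) (f.hom a)) = π x * π (B.P.br y (f.hom a)) +
      π y * π (B.P.br x (f.hom a))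
    rw [B.P.leibniz_left, map_add, map_mul, map_mul]; ring
  have hdA : ∀ a', d (f.hom a') = 0 := by
    intro a'
    change π (B.P.br (f.hom a') (f.hom a)) = 0
    rw [← f.map_br]
    exact Ideal.Quotient.eq_zero_iff_mem.2 (mem_kerIdeal f (A.counit_br _ _))
  have h0 : invPart π d = 0 := by
    ext x
    rw [LinearMap.zero_apply]
    obtain ⟨y, ⟨a', rfl⟩, z, hz, rfl⟩ := Submodule.mem_sup.mp (range_sup_augSq f hf x)
    rw [map_add]
    have e1 : invPart π d (f.hom a') = 0 := by
      refine (invPart_repr π d ((ℛ k a').induced (f.hom : A.carrier →ₗc[k] B.carrier))).trans ?_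
      refine Finset.sum_eq_zero fun i _ => ?_
      have : d ((((ℛ k a').induced (f.hom : A.carrier →ₗc[k] B.carrier))).right i) = 0 :=
        hdA ((ℛ k a').right i)
      rw [this, mul_zero]
    have e2 : invPart π d z = 0 := by
      have hz' : z ∈ (aug k B.carrier) ^ 2 := hz
      rw [pow_two] at hz'
      clear hz
      induction hz' using Submodule.mul_induction_on' with
      | mem_mul_mem x hx y hy =>
        rw [invPart_mul π d hd, mem_aug.1 hx, mem_aug.1 hy]; simp
      | add x hx y hy h h' => rw [map_add, h, h', add_zero]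
    have e3 : invPart π d ((f.hom : A.carrier →ₗ[k] B.carrier) a') = 0 := e1
    rw [e3, e2, add_zero]
  have h1 := deriv_eq_zero π d h0
  have h2 : π (B.P.br b (f.hom a)) = 0 := congrArg (fun F => F b) h1
  exact Ideal.Quotient.eq_zero_iff_mem.1 h2

theorem br_mem_kerIdeal' (hf : CategoryTheory.Epi f) (b : B.carrier) {x : B.carrier}
    (hx : x ∈ kerIdeal f) : B.P.br b x ∈ kerIdeal f := by
  have hx' : x ∈ Ideal.span ((f.hom : A.carrier →ₐ[k] B.carrier) '' (aug k A.carrier)) := hx
  clear hx
  induction hx' using Submodule.span_induction with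
  | mem x hx =>
    obtain ⟨a, -, rfl⟩ := hx
    exact br_mem_kerIdeal f hf a b
  | zero => rw [map_zero]; exact Ideal.zero_mem _
  | add x y _ _ h h' => rw [map_add]; exact Ideal.add_mem _ h h'
  | smul c x hx h =>
    rw [smul_eq_mul, B.P.leibniz]
    exact Ideal.add_mem _ (Ideal.mul_mem_left _ _ hx) (Ideal.mul_mem_left _ _ h)

/-- Half of the quotient bracket. -/
noncomputable def quotPBr₁ (hf : CategoryTheory.Epi f) :
    (B.carrier ⧸ kerIdeal f) →ₗ[k] B.carrier →ₗ[k] (B.carrier ⧸ kerIdeal f) :=
  ((kerIdeal f).restrictScalars k).liftQ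
      (B.P.br.compr₂ (Ideal.Quotient.mkₐ k (kerIdeal f)).toLinearMap).flip (fun _ hw =>
      LinearMap.mem_ker.2 (LinearMap.ext fun a =>
        Ideal.Quotient.eq_zero_iff_mem.2 (br_mem_kerIdeal' f hf a hw)))

/-- The quotient bracket as a bilinear map. -/
noncomputable def quotPBr (hf : CategoryTheory.Epi f) :
    (B.carrier ⧸ kerIdeal f) →ₗ[k] (B.carrier ⧸ kerIdeal f) →ₗ[k] (B.carrier ⧸ kerIdeal f) :=
  ((kerIdeal f).restrictScalars k).liftQ (quotPBr₁ f hf).flip (fun w hw =>
      LinearMap.mem_ker.2 (LinearMap.ext fun a => by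
        obtain ⟨a, rfl⟩ := Ideal.Quotient.mk_surjective a
        refine Ideal.Quotient.eq_zero_iff_mem.2 ?_
        rw [B.P.antisymm]
        exact (Ideal.neg_mem_iff _).2 (br_mem_kerIdeal' f hf a hw)))

/-- The quotient Poisson bracket. -/
noncomputable def quotP (hf : CategoryTheory.Epi f) :
    PoissonBracket k (B.carrier ⧸ kerIdeal f) where
  br := quotPBr f hf
  br_self := by
    intro a
    obtain ⟨a, rfl⟩ := Ideal.Quotient.mk_surjective a
    change Ideal.Quotient.mk _ (B.P.br a a) = 0
    rw [B.P.br_self, map_zero]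
  jacobi := by
    intro a b c
    obtain ⟨a, rfl⟩ := Ideal.Quotient.mk_surjective a
    obtain ⟨b, rfl⟩ := Ideal.Quotient.mk_surjective b
    obtain ⟨c, rfl⟩ := Ideal.Quotient.mk_surjective c
    change Ideal.Quotient.mk _ (B.P.br a (B.P.br b c) + B.P.br b (B.P.br c a) +
      B.P.br c (B.P.br a b)) = 0
    rw [B.P.jacobi, map_zero]
  leibniz := by
    intro a b c
    obtain ⟨a, rfl⟩ := Ideal.Quotient.mk_surjective a
    obtain ⟨b, rfl⟩ := Ideal.Quotient.mk_surjective b
    obtain ⟨c, rfl⟩ := Ideal.Quotient.mk_surjective c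
    change Ideal.Quotient.mk _ (B.P.br a (b * c)) =
      Ideal.Quotient.mk _ (B.P.br a b * c + b * B.P.br a c)
    rw [B.P.leibniz]

/-- Step 3: if `f` is an epimorphism, the augmentation ideal of `B` is generated by the image of
the augmentation ideal of `A`. -/
theorem aug_le_kerIdeal (hf : CategoryTheory.Epi f) : aug k B.carrier ≤ kerIdeal f := by
  have hπ : IsPoisson B.P (quotP f hf) (Ideal.Quotient.mkₐ k (kerIdeal f)) := fun a b => rfl
  have hη : IsPoisson B.P (quotP f hf)
      ((Algebra.ofId k (B.carrier ⧸ kerIdeal f)).comp (counitAlgHom k B.carrier)) := by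
    intro a b
    simp only [AlgHom.comp_apply, Algebra.ofId_apply, PoissonBracket.br_algebraMap]
    have : counitAlgHom k B.carrier (B.P.br a b) = 0 := B.counit_br a b
    rw [this, map_zero]
  have h := algHom_eq_of_epi f hf (quotP f hf) hπ hη (by
    intro a
    have h1 : f.hom (a - algebraMap k A.carrier (counit a)) ∈ kerIdeal f :=
      mem_kerIdeal f (by simp)
    have h2 := Ideal.Quotient.eq_zero_iff_mem.2 h1
    have h3 : f.hom (a - algebraMap k A.carrier (counit a)) =
        f.hom a - algebraMap k B.carrier (counit a) := by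
      rw [map_sub]
      congr 1
      exact AlgHomClass.commutes f.hom _
    rw [h3, map_sub, sub_eq_zero] at h2
    have h4 : counit (R := k) (f.hom a) = counit (R := k) a :=
      CoalgHomClass.counit_comp_apply f.hom a
    simp only [AlgHom.comp_apply, Algebra.ofId_apply, counitAlgHom_apply, h4]
    exact h2)
  intro x hx
  have h5 := congrArg (fun F : B.carrier →ₐ[k] B.carrier ⧸ kerIdeal f => F x) h
  simp only [AlgHom.comp_apply, counitAlgHom_apply, mem_aug.1 hx,
    map_zero] at h5
  exact Ideal.Quotient.eq_zero_iff_mem.1 h5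

end Kernel

end Pool.Agent.PoissonHopf
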