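import Pool.Agent.Lib.MP_c108b5_al.Kernel
import Pool.Agent.Lib.MP_c108b5_al.Flat

/-!
# Epimorphisms of Poisson Hopf algebras are surjective
-/

open TensorProduct Coalgebra HopfAlgebra Bialgebra

namespace Pool.Agent.PoissonHopf

universe u

variable {k : Type u} [Field k] {A B : PoissHopf.{u} k} (f : A ⟶ B)

/-- The image of a morphism as a subalgebra. -/
noncomputable def imgR : Subalgebra k B.carrier :=
  AlgHom.range (f.hom : A.carrier →ₐ[k] B.carrier)

theorem subHopf_imgR : SubHopf (imgR f) where
  comul_mem := by
    rintro _ ⟨a, rfl⟩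
    let g : A.carrier →ₐ[k] imgR f := AlgHom.rangeRestrict (f.hom : A.carrier →ₐ[k] B.carrier)
    refine ⟨TensorProduct.map g.toLinearMap g.toLinearMap (comul a), ?_⟩
    have h1 : comul (R := k) (f.hom a) =
        TensorProduct.map (f.hom : A.carrier →ₗ[k] B.carrier) (f.hom : A.carrier →ₗ[k] B.carrier)
          (comul (R := k) a) := (CoalgHomClass.map_comp_comul_apply f.hom a).symm
    have h2 : ∀ t : A.carrier ⊗[k] A.carrier,
        TensorProduct.map (imgR f).val.toLinearMap (imgR f).val.toLinearMap
          (TensorProduct.map g.toLinearMap g.toLinearMap t) =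
        TensorProduct.map (f.hom : A.carrier →ₗ[k] B.carrier)
          (f.hom : A.carrier →ₗ[k] B.carrier) t := by
      intro t
      induction t with
      | zero => simp
      | add s t h h' => simp only [map_add, h, h']
      | tmul a b => rfl
    rw [h2]
    exact h1.symm
  antipode_mem := by
    rintro _ ⟨a, rfl⟩
    exact ⟨antipode k a, hom_antipode f.hom a⟩

/-- An epimorphism of Poisson Hopf algebras is surjective. -/
theorem surjective_of_epi (hf : CategoryTheory.Epi f) : Function.Surjective f.hom := by
  have h1 : imgR f = ⊤ := by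
    apply (subHopf_imgR f).eq_top
    intro x hx
    have hx' : x ∈ Ideal.span ((f.hom : A.carrier →ₐ[k] B.carrier) '' (aug k A.carrier)) :=
      aug_le_kerIdeal f hf hx
    clear hx
    induction hx' using Submodule.span_induction with
    | mem x hx =>
      obtain ⟨a, ha, rfl⟩ := hx
      have h2 : f.hom a ∈ augSub (imgR f) := by
        refine ⟨⟨a, rfl⟩, ?_⟩
        have h3 : counit (R := k) (f.hom a) = counit (R := k) a :=
          CoalgHomClass.counit_comp_apply f.hom a
        have h4 : counit (R := k) a = 0 := ha
        exact h3.trans h4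
      have h5 := Submodule.mul_mem_mul (Submodule.mem_top : (1 : B.carrier) ∈ (⊤ : Submodule k _)) h2
      rwa [one_mul] at h5
    | zero => exact Submodule.zero_mem _
    | add x y _ _ h h' => exact Submodule.add_mem _ h h'
    | smul c x hx0 h =>
      rw [smul_eq_mul]
      clear hx0
      induction h using Submodule.mul_induction_on' with
      | mem_mul_mem a _ r hr =>
        rw [← mul_assoc]
        exact Submodule.mul_mem_mul Submodule.mem_top hr
      | add x _ y _ h h' => rw [mul_add]; exact Submodule.add_mem _ h h'
  intro b
  have h2 : b ∈ imgR f := by rw [h1]; exact Algebra.mem_top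
  obtain ⟨a, ha⟩ := h2
  exact ⟨a, ha⟩

end Pool.Agent.PoissonHopf
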