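import Pool.Agent.Lib.MP_c108b5_al.Tensor

/-!
# The push-out of a map with itself in the category of Poisson algebras
-/

open TensorProduct

namespace Pool.Agent.PoissonHopf

universe u

/-- Formal Poisson expressions in two copies of `B`. -/
inductive Pre (B : Type u) : Type u
  | inl (b : B) : Pre B
  | inr (b : B) : Pre B
  | add (x y : Pre B) : Pre B
  | mul (x y : Pre B) : Pre B
  | neg (x : Pre B) : Pre B
  | br (x y : Pre B) : Pre B

section

variable {k A B : Type u} [Field k] [CommRing B] [Algebra k B] (P : PoissonBracket k B)
  (f : A → B)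

/-- The congruence defining the push-out. -/
inductive Rel : Pre B → Pre B → Prop
  | refl (x) : Rel x x
  | symm {x y} : Rel x y → Rel y x
  | trans {x y z} : Rel x y → Rel y z → Rel x z
  | add_congr {x x' y y'} : Rel x x' → Rel y y' → Rel (.add x y) (.add x' y')
  | mul_congr {x x' y y'} : Rel x x' → Rel y y' → Rel (.mul x y) (.mul x' y')
  | neg_congr {x x'} : Rel x x' → Rel (.neg x) (.neg x')
  | br_congr {x x' y y'} : Rel x x' → Rel y y' → Rel (.br x y) (.br x' y')
  | add_assoc (x y z) : Rel (.add (.add x y) z) (.add x (.add y z))
  | add_comm (x y) : Rel (.add x y) (.add y x)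
  | zero_add (x) : Rel (.add (.inl 0) x) x
  | neg_add (x) : Rel (.add (.neg x) x) (.inl 0)
  | mul_assoc (x y z) : Rel (.mul (.mul x y) z) (.mul x (.mul y z))
  | mul_comm (x y) : Rel (.mul x y) (.mul y x)
  | one_mul (x) : Rel (.mul (.inl 1) x) x
  | mul_add (x y z) : Rel (.mul x (.add y z)) (.add (.mul x y) (.mul x z))
  | br_self (x) : Rel (.br x x) (.inl 0)
  | br_add (x y z) : Rel (.br x (.add y z)) (.add (.br x y) (.br x z))
  | add_br (x y z) : Rel (.br (.add x y) z) (.add (.br x z) (.br y z))
  | jacobi (x y z) : Rel (.add (.add (.br x (.br y z)) (.br y (.br z x))) (.br z (.br x y)))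
      (.inl 0)
  | leibniz (x y z) : Rel (.br x (.mul y z)) (.add (.mul (.br x y) z) (.mul y (.br x z)))
  | br_alg (x) (c : k) : Rel (.br x (.inl (algebraMap k B c))) (.inl 0)
  | inl_add (a b) : Rel (.inl (a + b)) (.add (.inl a) (.inl b))
  | inl_mul (a b) : Rel (.inl (a * b)) (.mul (.inl a) (.inl b))
  | inl_br (a b) : Rel (.inl (P.br a b)) (.br (.inl a) (.inl b))
  | inr_add (a b) : Rel (.inr (a + b)) (.add (.inr a) (.inr b))
  | inr_mul (a b) : Rel (.inr (a * b)) (.mul (.inr a) (.inr b))
  | inr_br (a b) : Rel (.inr (P.br a b)) (.br (.inr a) (.inr b))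
  | glue_alg (c : k) : Rel (.inl (algebraMap k B c)) (.inr (algebraMap k B c))
  | glue (a : A) : Rel (.inl (f a)) (.inr (f a))

/-- The setoid of the congruence. -/
def relSetoid : Setoid (Pre B) := ⟨Rel P f, ⟨Rel.refl, Rel.symm, Rel.trans⟩⟩

/-- The push-out of `f` with itself in Poisson algebras. -/
def Q : Type u := Quotient (relSetoid P f)

namespace Q

variable {P f}

/-- The class of an expression. -/
def mk (x : Pre B) : Q P f := Quotient.mk (relSetoid P f) x

theorem sound {x y : Pre B} (h : Rel P f x y) : (mk x : Q P f) = mk y :=
  Quotient.sound (s := relSetoid P f) h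

theorem ind {motive : Q P f → Prop} (h : ∀ x, motive (mk x)) (q : Q P f) : motive q :=
  Quotient.ind (s := relSetoid P f) h q

instance : Add (Q P f) := ⟨Quotient.map₂ Pre.add fun _ _ h _ _ h' => Rel.add_congr h h'⟩
instance : Mul (Q P f) := ⟨Quotient.map₂ Pre.mul fun _ _ h _ _ h' => Rel.mul_congr h h'⟩
instance : Neg (Q P f) := ⟨Quotient.map Pre.neg fun _ _ h => Rel.neg_congr h⟩
instance : Zero (Q P f) := ⟨mk (.inl 0)⟩
instance : One (Q P f) := ⟨mk (.inl 1)⟩

/-- The bracket as a bare function. -/
def brFun : Q P f → Q P f → Q P f := Quotient.map₂ Pre.br fun _ _ h _ _ h' => Rel.br_congr h h'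

instance : CommRing (Q P f) where
  add_assoc := by
    intro a b c
    induction a using ind; induction b using ind; induction c using ind
    exact sound (Rel.add_assoc _ _ _)
  zero_add := by
    intro a
    induction a using ind
    exact sound (Rel.zero_add _)
  add_zero := by
    intro a
    induction a using ind
    exact (sound (Rel.add_comm _ _)).trans (sound (Rel.zero_add _))
  add_comm := by
    intro a b
    induction a using ind; induction b using ind
    exact sound (Rel.add_comm _ _)
  left_distrib := by
    intro a b c
    induction a using ind; induction b using ind; induction c using ind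
    exact sound (Rel.mul_add _ _ _)
  right_distrib := by
    intro a b c
    induction a using ind; induction b using ind; induction c using ind
    exact sound ((Rel.mul_comm _ _).trans ((Rel.mul_add _ _ _).trans
      (Rel.add_congr (Rel.mul_comm _ _) (Rel.mul_comm _ _))))
  zero_mul := by
    intro a
    induction a using ind with
    | h x =>
    have h1 : Rel P f (.mul x (.inl 0)) (.add (.mul x (.inl 0)) (.mul x (.inl 0))) :=
      (Rel.mul_congr (Rel.refl x) (Rel.zero_add (.inl 0)).symm).trans (Rel.mul_add _ _ _)
    have h2 : Rel P f (.inl 0) (.mul x (.inl 0)) :=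
      (Rel.neg_add (.mul x (.inl 0))).symm.trans <|
        (Rel.add_congr (Rel.refl _) h1).trans <| (Rel.add_assoc _ _ _).symm.trans <|
        (Rel.add_congr (Rel.neg_add _) (Rel.refl _)).trans (Rel.zero_add _)
    exact sound ((Rel.mul_comm _ _).trans h2.symm)
  mul_zero := by
    intro a
    induction a using ind with
    | h x =>
    have h1 : Rel P f (.mul x (.inl 0)) (.add (.mul x (.inl 0)) (.mul x (.inl 0))) :=
      (Rel.mul_congr (Rel.refl x) (Rel.zero_add (.inl 0)).symm).trans (Rel.mul_add _ _ _)
    have h2 : Rel P f (.inl 0) (.mul x (.inl 0)) :=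
      (Rel.neg_add (.mul x (.inl 0))).symm.trans <|
        (Rel.add_congr (Rel.refl _) h1).trans <| (Rel.add_assoc _ _ _).symm.trans <|
        (Rel.add_congr (Rel.neg_add _) (Rel.refl _)).trans (Rel.zero_add _)
    exact sound h2.symm
  mul_assoc := by
    intro a b c
    induction a using ind; induction b using ind; induction c using ind
    exact sound (Rel.mul_assoc _ _ _)
  one_mul := by
    intro a
    induction a using ind
    exact sound (Rel.one_mul _)
  mul_one := by
    intro a
    induction a using ind
    exact sound ((Rel.mul_comm _ _).trans (Rel.one_mul _))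
  neg_add_cancel := by
    intro a
    induction a using ind
    exact sound (Rel.neg_add _)
  mul_comm := by
    intro a b
    induction a using ind; induction b using ind
    exact sound (Rel.mul_comm _ _)
  nsmul := nsmulRec
  zsmul := zsmulRec
  npow := npowRec

instance : Algebra k (Q P f) := RingHom.toAlgebra
  { toFun := fun c => mk (.inl (algebraMap k B c))
    map_one' := by rw [map_one]; rfl
    map_zero' := by rw [map_zero]; rfl
    map_mul' := fun a b => by rw [map_mul]; exact sound (Rel.inl_mul _ _)
    map_add' := fun a b => by rw [map_add]; exact sound (Rel.inl_add _ _) }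

theorem algebraMap_def (c : k) : algebraMap k (Q P f) c = mk (.inl (algebraMap k B c)) := rfl

theorem brFun_self (x : Q P f) : brFun x x = 0 := by
  induction x using ind
  exact sound (Rel.br_self _)

theorem brFun_add (x y z : Q P f) : brFun x (y + z) = brFun x y + brFun x z := by
  induction x using ind; induction y using ind; induction z using ind
  exact sound (Rel.br_add _ _ _)

theorem add_brFun (x y z : Q P f) : brFun (x + y) z = brFun x z + brFun y z := by
  induction x using ind; induction y using ind; induction z using ind
  exact sound (Rel.add_br _ _ _)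

theorem brFun_antisymm (x y : Q P f) : brFun x y = - brFun y x := by
  have h := brFun_self (x + y)
  rw [brFun_add, add_brFun, add_brFun, brFun_self, brFun_self, zero_add, add_zero] at h
  exact eq_neg_of_add_eq_zero_right h

theorem brFun_leibniz (x y z : Q P f) :
    brFun x (y * z) = brFun x y * z + y * brFun x z := by
  induction x using ind; induction y using ind; induction z using ind
  exact sound (Rel.leibniz _ _ _)

theorem brFun_smul (c : k) (x y : Q P f) : brFun x (c • y) = c • brFun x y := by
  have : brFun x (algebraMap k (Q P f) c) = 0 := by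
    induction x using ind
    exact sound (Rel.br_alg _ _)
  rw [Algebra.smul_def, Algebra.smul_def, brFun_leibniz, this, zero_mul, zero_add]

/-- The Poisson bracket of the push-out. -/
def bracket : PoissonBracket k (Q P f) where
  br := LinearMap.mk₂ k brFun add_brFun
    (fun c x y => by
      rw [brFun_antisymm, brFun_smul, brFun_antisymm x y, smul_neg]) brFun_add brFun_smul
  br_self := brFun_self
  jacobi := by
    intro x y z
    induction x using ind; induction y using ind; induction z using ind
    exact sound (Rel.jacobi _ _ _)
  leibniz := brFun_leibniz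

/-- The first inclusion. -/
def i1 : B →ₐ[k] Q P f where
  toFun b := mk (.inl b)
  map_one' := rfl
  map_zero' := rfl
  map_mul' _ _ := sound (Rel.inl_mul _ _)
  map_add' _ _ := sound (Rel.inl_add _ _)
  commutes' _ := rfl

/-- The second inclusion. -/
def i2 : B →ₐ[k] Q P f where
  toFun b := mk (.inr b)
  map_one' := by
    have := (sound (Rel.glue_alg 1) : (mk _ : Q P f) = _)
    rw [map_one] at this
    exact this.symm
  map_zero' := by
    have := (sound (Rel.glue_alg 0) : (mk _ : Q P f) = _)
    rw [map_zero] at this
    exact this.symm
  map_mul' _ _ := sound (Rel.inr_mul _ _)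
  map_add' _ _ := sound (Rel.inr_add _ _)
  commutes' c := (sound (Rel.glue_alg c)).symm

theorem isPoisson_i1 : IsPoisson P (bracket (P := P) (f := f)) i1 := fun _ _ =>
  sound (Rel.inl_br _ _)

theorem isPoisson_i2 : IsPoisson P (bracket (P := P) (f := f)) i2 := fun _ _ =>
  sound (Rel.inr_br _ _)

theorem i1_glue (a : A) : (i1 (f a) : Q P f) = i2 (f a) := sound (Rel.glue a)

/-- Induction principle. -/
theorem induction {motive : Q P f → Prop} (h1 : ∀ b, motive (i1 b)) (h2 : ∀ b, motive (i2 b))
    (hadd : ∀ x y, motive x → motive y → motive (x + y))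
    (hmul : ∀ x y, motive x → motive y → motive (x * y))
    (hneg : ∀ x, motive x → motive (-x))
    (hbr : ∀ x y, motive x → motive y → motive (bracket.br x y)) (q : Q P f) : motive q := by
  induction q using ind with
  | h x =>
  induction x with
  | inl b => exact h1 b
  | inr b => exact h2 b
  | add x y hx hy => exact hadd _ _ hx hy
  | mul x y hx hy => exact hmul _ _ hx hy
  | neg x hx => exact hneg _ hx
  | br x y hx hy => exact hbr _ _ hx hy

theorem hom_ext {R : Type*} [CommRing R] [Algebra k R] {PR : PoissonBracket k R}
    {Φ Ψ : Q P f →ₐ[k] R} (hΦ : IsPoisson bracket PR Φ) (hΨ : IsPoisson bracket PR Ψ)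
    (h1 : Φ.comp i1 = Ψ.comp i1) (h2 : Φ.comp i2 = Ψ.comp i2) : Φ = Ψ := by
  ext q
  induction q using induction with
  | h1 b => exact congrArg (fun F => F b) h1
  | h2 b => exact congrArg (fun F => F b) h2
  | hadd x y hx hy => rw [map_add, map_add, hx, hy]
  | hmul x y hx hy => rw [map_mul, map_mul, hx, hy]
  | hneg x hx => rw [map_neg, map_neg, hx]
  | hbr x y hx hy => rw [hΦ, hΨ, hx, hy]

section Lift

variable {R : Type*} [CommRing R] [Algebra k R] (PR : PoissonBracket k R)
  (u v : B →ₐ[k] R)

/-- Evaluation of expressions. -/
def eval : Pre B → R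
  | .inl b => u b
  | .inr b => v b
  | .add x y => eval x + eval y
  | .mul x y => eval x * eval y
  | .neg x => - eval x
  | .br x y => PR.br (eval x) (eval y)

variable {PR u v} (hu : IsPoisson P PR u) (hv : IsPoisson P PR v) (huv : ∀ a, u (f a) = v (f a))

include hu hv huv in
theorem eval_congr {x y : Pre B} (h : Rel P f x y) : eval PR u v x = eval PR u v y := by
  induction h with
  | refl x => rfl
  | symm _ h => exact h.symm
  | trans _ _ h h' => exact h.trans h'
  | add_congr _ _ h h' => simp only [eval, h, h']
  | mul_congr _ _ h h' => simp only [eval, h, h']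
  | neg_congr _ h => simp only [eval, h]
  | br_congr _ _ h h' => simp only [eval, h, h']
  | add_assoc x y z => simp only [eval]; ring
  | add_comm x y => simp only [eval]; ring
  | zero_add x => simp only [eval, map_zero]; ring
  | neg_add x => simp only [eval, map_zero]; ring
  | mul_assoc x y z => simp only [eval]; ring
  | mul_comm x y => simp only [eval]; ring
  | one_mul x => simp only [eval, map_one]; ring
  | mul_add x y z => simp only [eval]; ring
  | br_self x => simp only [eval, map_zero, PR.br_self]
  | br_add x y z => simp only [eval, map_add]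
  | add_br x y z => simp only [eval, map_add, LinearMap.add_apply]
  | jacobi x y z => simp only [eval, map_zero, PR.jacobi]
  | leibniz x y z => simp only [eval, PR.leibniz]
  | br_alg x c => simp only [eval, map_zero, AlgHom.commutes, PR.br_algebraMap]
  | inl_add a b => simp only [eval, map_add]
  | inl_mul a b => simp only [eval, map_mul]
  | inl_br a b => simp only [eval, hu a b]
  | inr_add a b => simp only [eval, map_add]
  | inr_mul a b => simp only [eval, map_mul]
  | inr_br a b => simp only [eval, hv a b]
  | glue_alg c => simp only [eval, AlgHom.commutes]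
  | glue a => exact huv a

/-- The universal property of the push-out. -/
def lift : Q P f →ₐ[k] R where
  toFun := Quotient.lift (eval PR u v) fun _ _ h => eval_congr hu hv huv h
  map_one' := map_one u
  map_zero' := map_zero u
  map_mul' a b := by
    induction a using ind; induction b using ind; rfl
  map_add' a b := by
    induction a using ind; induction b using ind; rfl
  commutes' c := u.commutes c

theorem lift_i1 (b : B) : lift hu hv huv (i1 b) = u b := rfl

theorem lift_i2 (b : B) : lift hu hv huv (i2 b) = v b := rfl

theorem lift_comp_i1 : (lift hu hv huv).comp i1 = u := rfl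

theorem lift_comp_i2 : (lift hu hv huv).comp i2 = v := rfl

theorem isPoisson_lift : IsPoisson bracket PR (lift hu hv huv) := by
  intro a b
  induction a using ind; induction b using ind; rfl

end Lift

end Q

end

end Pool.Agent.PoissonHopf
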