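import Pool.Agent.Lib.MP_c108b5_al.Comodule

/-!
# Sub Hopf algebras of a commutative Hopf algebra with trivial kernel
-/

open TensorProduct Coalgebra HopfAlgebra Bialgebra

namespace Pool.Agent.PoissonHopf

universe u

section Sub

variable {k B : Type u} [Field k] [CommRing B] [HopfAlgebra k B]

/-- Sub Hopf algebras. -/
structure SubHopf (R : Subalgebra k B) : Prop where
  comul_mem : ∀ a ∈ R, ∃ t : R ⊗[k] R,
    TensorProduct.map R.val.toLinearMap R.val.toLinearMap t = comul (R := k) a
  antipode_mem : ∀ a ∈ R, antipode k a ∈ R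

variable {R : Subalgebra k B} (hR : SubHopf R)

include hR in
theorem SubHopf.stable : Stable (Subalgebra.toSubmodule R) := by
  intro a ha β
  obtain ⟨t, ht⟩ := hR.comul_mem a ha
  rw [← ht]
  clear ht
  induction t with
  | zero => simp
  | add s t h h' => rw [map_add, map_add]; exact Submodule.add_mem _ h h'
  | tmul x y =>
    rw [map_tmul, sl_tmul]
    exact Submodule.smul_mem _ _ x.2

include hR in
/-- A nonzero stable ideal of a sub Hopf algebra contains `1`. -/
theorem SubHopf.one_mem {J : Submodule k B} (hJR : J ≤ Subalgebra.toSubmodule R)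
    (hmul : ∀ x ∈ J, ∀ a ∈ R, x * a ∈ J) (hJ : Stable J) {x : B} (hx : x ∈ J) (hx0 : x ≠ 0) :
    (1 : B) ∈ J := by
  classical
  obtain ⟨β, hβ⟩ : ∃ β : B →ₗ[k] k, β x ≠ 0 := by
    by_contra hcon
    push Not at hcon
    exact hx0 ((Module.forall_dual_apply_eq_zero_iff k x).1 hcon)
  set x' := sl β (comul x) with hx'
  have hx'J : x' ∈ J := hJ x hx β
  have hε : counit (R := k) x' ≠ 0 := by rw [hx', counit_sl]; exact hβ
  obtain ⟨t, ht⟩ := hR.comul_mem x' (hJR hx'J)
  let e := Module.Basis.ofVectorSpace k R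
  obtain ⟨c, hc⟩ := TensorProduct.eq_repr_basis_right e t
  have hcomul : comul (R := k) x' = ∑ i ∈ c.support, ((c i : R) : B) ⊗ₜ[k] ((e i : R) : B) := by
    rw [← ht, ← hc, Finsupp.sum, map_sum]
    rfl
  have hcJ : ∀ i ∈ c.support, ((c i : R) : B) ∈ J := by
    intro i hi
    obtain ⟨g, hg⟩ := LinearMap.exists_extend (p := Subalgebra.toSubmodule R) (e.coord i)
    have h1 := hJ x' hx'J g
    rw [hcomul, map_sum] at h1
    have h2 : ∀ j, g ((e j : R) : B) = if j = i then 1 else 0 := by
      intro j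
      have := congrArg (fun F => F (e j)) hg
      simp only [LinearMap.comp_apply] at this
      change g ((e j : R) : B) = e.coord i (e j) at this
      rw [this, Module.Basis.coord_apply, Module.Basis.repr_self, Finsupp.single_apply]
    simp only [sl_tmul, h2, ite_smul, one_smul, zero_smul] at h1
    rw [Finset.sum_ite_eq' c.support i] at h1
    simpa [hi] using h1
  have h3 := mul_antipode_lTensor_comul_apply (R := k) x'
  rw [hcomul, map_sum, map_sum] at h3
  have h4 : algebraMap k B (counit x') ∈ J := by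
    rw [← h3]
    refine Submodule.sum_mem _ fun i hi => ?_
    simp only [LinearMap.lTensor_tmul, LinearMap.mul'_apply]
    exact hmul _ (hcJ i hi) _ (hR.antipode_mem _ (e i).2)
  have h5 : (1 : B) = (counit (R := k) x')⁻¹ • algebraMap k B (counit x') := by
    rw [Algebra.algebraMap_eq_smul_one, smul_smul, inv_mul_cancel₀ hε, one_smul]
  rw [h5]
  exact Submodule.smul_mem _ _ h4

/-- Key identity: `x₁ ⊗ x₂ S(x₃) = x ⊗ 1`. -/
theorem sum_comul_antipode {κ : Type*} (s : Finset κ) (p q : κ → B) {v : B}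
    (h : comul (R := k) v = ∑ i ∈ s, p i ⊗ₜ[k] q i) :
    ∑ i ∈ s, comul (R := k) (p i) * ((1 : B) ⊗ₜ[k] antipode k (q i)) = v ⊗ₜ[k] 1 := by
  let M : (B ⊗[k] B) ⊗[k] B →ₗ[k] B ⊗[k] B :=
    (LinearMap.mul' k B ∘ₗ (antipode k).lTensor B).lTensor B ∘ₗ
      (TensorProduct.assoc k B B B).toLinearMap
  have h1 : ∀ (t : B ⊗[k] B) (y : B), M (t ⊗ₜ y) = t * ((1 : B) ⊗ₜ[k] antipode k y) := by
    intro t y
    induction t with
    | zero => simp
    | add s t h h' => simp only [add_tmul, map_add, h, h', add_mul]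
    | tmul a b => simp [M]
  have h2 : M (comul.rTensor B (comul (R := k) v)) = v ⊗ₜ[k] 1 := by
    have : M (comul.rTensor B (comul (R := k) v)) =
        (LinearMap.mul' k B ∘ₗ (antipode k).lTensor B ∘ₗ comul).lTensor B (comul v) := by
      change (LinearMap.mul' k B ∘ₗ (antipode k).lTensor B).lTensor B
        (TensorProduct.assoc k B B B (comul.rTensor B (comul (R := k) v))) = _
      rw [coassoc_apply, ← LinearMap.comp_apply, ← LinearMap.lTensor_comp, LinearMap.comp_assoc]
    rw [this, mul_antipode_lTensor_comul, LinearMap.lTensor_comp, LinearMap.comp_apply,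
      lTensor_counit_comul]
    simp
  rw [← h2, h, map_sum, map_sum]
  refine Finset.sum_congr rfl fun i _ => ?_
  rw [LinearMap.rTensor_tmul, h1]

include hR in
/-- If `s V ⊆ R` for some nonzero `s` in `R` and a subcomodule `V`, then `V ⊆ R`. -/
theorem SubHopf.le_of_smul {V : Submodule k B} (hV : Stable V) {s : B} (hs : s ∈ R) (hs0 : s ≠ 0)
    (hsV : ∀ v ∈ V, v * s ∈ R) : V ≤ Subalgebra.toSubmodule R := by
  let J : Submodule k B :=
    { carrier := {a | a ∈ R ∧ ∀ v ∈ V, v * a ∈ R}
      add_mem' := fun {a b} ha hb => ⟨R.add_mem ha.1 hb.1, fun v hv => by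
        rw [mul_add]; exact R.add_mem (ha.2 v hv) (hb.2 v hv)⟩
      zero_mem' := ⟨R.zero_mem, fun v _ => by rw [mul_zero]; exact R.zero_mem⟩
      smul_mem' := fun c a ha => ⟨R.smul_mem ha.1 c, fun v hv => by
        rw [mul_smul_comm]; exact R.smul_mem (ha.2 v hv) c⟩ }
  have hJ : Stable J := by
    rintro a ⟨haR, ha⟩ β
    refine ⟨hR.stable a haR β, fun v hv => ?_⟩
    obtain ⟨κ, s, p, q, hp, hpq⟩ := hV.exists_rep hv
    have h1 : v * sl β (comul a) = sl β ((v ⊗ₜ[k] 1) * comul a) := by
      rw [sl_mul_tmul]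
      congr 2
      ext x; simp
    have h2 : v * sl β (comul a) =
        ∑ i ∈ s, sl (β ∘ₗ LinearMap.mulLeft k (antipode k (q i))) (comul (p i * a)) := by
      rw [h1, ← sum_comul_antipode s p q hpq, Finset.sum_mul, map_sum]
      refine Finset.sum_congr rfl fun i _ => ?_
      have h3 : comul (R := k) (p i) * ((1 : B) ⊗ₜ[k] antipode k (q i)) * comul a =
          ((1 : B) ⊗ₜ[k] antipode k (q i)) * comul (p i * a) := by
        rw [comul_mul]; ring
      rw [h3, sl_mul_tmul, one_mul]
    rw [h2]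
    exact Submodule.sum_mem (Subalgebra.toSubmodule R) fun i _ =>
      hR.stable _ (ha (p i) (hp i)) _
  have h1 := hR.one_mem (J := J) (fun a ha => ha.1)
    (fun x hx a ha => ⟨R.mul_mem hx.1 ha, fun v hv => by
      rw [← mul_assoc]; exact R.mul_mem (hx.2 v hv) ha⟩) hJ (x := s) ⟨hs, hsV⟩ hs0
  intro v hv
  have := h1.2 v hv
  rwa [mul_one] at this

/-- The augmentation ideal of a subalgebra, as a subspace of `B`. -/
noncomputable def augSub (R : Subalgebra k B) : Submodule k B :=
  Subalgebra.toSubmodule R ⊓ LinearMap.ker (counit (R := k) (A := B))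

/-- Nakayama's lemma: if `V^+ ⊆ V R^+` then `s V ⊆ R` for some `s` with `ε(s) = 1`. -/
theorem exists_smul_mem {V : Submodule k B} [Module.Finite k V]
    (h : ∀ v ∈ V, counit (R := k) v = 0 → v ∈ V * augSub R) (h1 : (1 : B) ∈ V) :
    ∃ s ∈ R, counit (R := k) s = 1 ∧ ∀ v ∈ V, v * s ∈ R := by
  let Rs : Submodule R B := LinearMap.range (Algebra.linearMap R B)
  let εR : R →+* k := (counitAlgHom k B).toRingHom.comp R.val.toRingHom
  let I : Ideal R := RingHom.ker εR
  let N : Submodule R (B ⧸ Rs) := (Submodule.span R (V : Set B)).map Rs.mkQ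
  have hNfg : N.FG := by
    apply Submodule.FG.map
    obtain ⟨s, hs⟩ := (Module.Finite.iff_fg (R := k) (N := V)).1 inferInstance
    refine ⟨s, ?_⟩
    apply le_antisymm
    · rw [Submodule.span_le]
      intro x hx
      exact Submodule.subset_span (hs ▸ Submodule.subset_span hx)
    · rw [Submodule.span_le]
      intro x hx
      have hx' : x ∈ Submodule.span k (s : Set B) := hs ▸ hx
      exact Submodule.span_subset_span k R _ hx'
  have hNI : N ≤ I • N := by
    rw [Submodule.map_le_iff_le_comap, Submodule.span_le]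
    intro v hv
    have hv' : v - counit (R := k) v • (1 : B) ∈ V * augSub R :=
      h _ (V.sub_mem hv (V.smul_mem _ h1)) (by simp)
    have h2 : ∀ z ∈ V * augSub R, Rs.mkQ z ∈ I • N := by
      intro z hz
      induction hz using Submodule.mul_induction_on' with
      | mem_mul_mem x hx y hy =>
        have h3 : Rs.mkQ (x * y) = (⟨y, hy.1⟩ : R) • Rs.mkQ x := by
          rw [← map_smul]
          congr 1
          rw [mul_comm]; rfl
        rw [h3]
        exact Submodule.smul_mem_smul (hy.2 : (⟨y, hy.1⟩ : R) ∈ I)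
          (Submodule.mem_map_of_mem (Submodule.subset_span hx))
      | add x hx y hy h h' => rw [map_add]; exact Submodule.add_mem _ h h'
    have h4 : Rs.mkQ v = Rs.mkQ (v - counit (R := k) v • (1 : B)) := by
      rw [map_sub, eq_comm, sub_eq_self, Submodule.mkQ_apply, Submodule.Quotient.mk_eq_zero]
      exact ⟨counit (R := k) v • (1 : R), rfl⟩
    change Rs.mkQ v ∈ I • N
    rw [h4]
    exact h2 _ hv'
  obtain ⟨r, hr1, hr2⟩ :=
    Submodule.exists_sub_one_mem_and_smul_eq_zero_of_fg_of_le_smul I N hNfg hNI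
  refine ⟨r, r.2, ?_, fun v hv => ?_⟩
  · have h5 : εR (r - 1) = 0 := hr1
    rw [map_sub, map_one, sub_eq_zero] at h5
    exact h5
  · have h6 := hr2 (Rs.mkQ v) (Submodule.mem_map_of_mem (Submodule.subset_span hv))
    rw [← map_smul, Submodule.mkQ_apply, Submodule.Quotient.mk_eq_zero] at h6
    obtain ⟨r', hr'⟩ := h6
    rw [mul_comm]
    have h7 : (r : B) * v = (r' : B) := hr'.symm
    rw [h7]
    exact r'.2

end Sub

end Pool.Agent.PoissonHopf
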