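import Pool.Agent.Lib.MP_c108b5_al.Defs

/-!
# The Poisson algebra structure on a tensor product
-/

open TensorProduct

namespace Pool.Agent.PoissonHopf

section Basic

variable {k A : Type*} [Field k] [CommRing A] [Algebra k A] (P : PoissonBracket k A)

namespace PoissonBracket

theorem antisymm (a b : A) : P.br a b = - P.br b a := by
  have h := P.br_self (a + b)
  simp only [map_add, LinearMap.add_apply, P.br_self, zero_add, add_zero] at h
  exact eq_neg_of_add_eq_zero_right h

theorem leibniz_left (a b c : A) : P.br (a * b) c = P.br a c * b + a * P.br b c := by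
  rw [P.antisymm, P.leibniz, P.antisymm c a, P.antisymm c b]; ring

theorem br_one (a : A) : P.br a 1 = 0 := by
  have := P.leibniz a 1 1
  simp only [mul_one, one_mul] at this
  exact left_eq_add.mp this

theorem br_algebraMap (a : A) (c : k) : P.br a (algebraMap k A c) = 0 := by
  rw [Algebra.algebraMap_eq_smul_one, map_smul, P.br_one, smul_zero]

theorem one_br (a : A) : P.br 1 a = 0 := by rw [P.antisymm, P.br_one, neg_zero]

theorem algebraMap_br (a : A) (c : k) : P.br (algebraMap k A c) a = 0 := by
  rw [P.antisymm, P.br_algebraMap, neg_zero]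

/-- The opposite Poisson bracket. -/
def neg : PoissonBracket k A where
  br := - P.br
  br_self a := by simp [P.br_self]
  jacobi a b c := by
    simp only [LinearMap.neg_apply, map_neg, neg_neg]
    exact P.jacobi a b c
  leibniz a b c := by
    simp only [LinearMap.neg_apply, P.leibniz]; ring

@[simp] theorem neg_br (a b : A) : P.neg.br a b = - P.br a b := rfl

/-- The zero bracket. -/
def zero (k A : Type*) [Field k] [CommRing A] [Algebra k A] : PoissonBracket k A where
  br := 0
  br_self a := by simp
  jacobi a b c := by simp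
  leibniz a b c := by simp

@[simp] theorem zero_br (a b : A) : (zero k A).br a b = 0 := rfl

end PoissonBracket

end Basic

section Tensor

variable {k A B : Type*} [Field k] [CommRing A] [Algebra k A] [CommRing B] [Algebra k B]

@[simp] theorem tensorBr_tmul (β : A →ₗ[k] A →ₗ[k] A) (γ : B →ₗ[k] B →ₗ[k] B) (a c : A) (b d : B) :
    tensorBr β γ (a ⊗ₜ b) (c ⊗ₜ d) = β a c ⊗ₜ (b * d) + (a * c) ⊗ₜ γ b d := by
  simp [tensorBr]

variable (P : PoissonBracket k A) (P' : PoissonBracket k B)

theorem tensorBr_antisymm (s t : A ⊗[k] B) :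
    tensorBr P.br P'.br s t = - tensorBr P.br P'.br t s := by
  induction s with
  | zero => simp
  | add s s' h h' => simp only [map_add, LinearMap.add_apply, h, h']; abel
  | tmul a b =>
    induction t with
    | zero => simp
    | add t t' h h' => simp only [map_add, LinearMap.add_apply, h, h']; abel
    | tmul c d =>
      rw [tensorBr_tmul, tensorBr_tmul, P.antisymm a c, P'.antisymm b d, neg_tmul, tmul_neg,
        mul_comm b d, mul_comm a c, neg_add]

theorem tensorBr_self (s : A ⊗[k] B) : tensorBr P.br P'.br s s = 0 := by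
  induction s with
  | zero => simp
  | add s s' h h' =>
    simp only [map_add, LinearMap.add_apply, h, h']
    rw [tensorBr_antisymm P P' s s']; abel
  | tmul a b => simp [P.br_self, P'.br_self]

theorem tmul_eq_mul (a : A) (b : B) : (a ⊗ₜ[k] b : A ⊗[k] B) =
    Algebra.TensorProduct.includeLeft (R := k) (S := k) a *
      Algebra.TensorProduct.includeRight b := by simp

theorem tensorBr_leibniz (s t r : A ⊗[k] B) : tensorBr P.br P'.br s (t * r) =
    tensorBr P.br P'.br s t * r + t * tensorBr P.br P'.br s r := by
  induction s with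
  | zero => simp
  | add s s' h h' => simp only [map_add, LinearMap.add_apply, h, h']; ring
  | tmul a b =>
    induction t with
    | zero => simp
    | add t t' h h' => simp only [map_add, h, h', add_mul]; ring
    | tmul c d =>
      induction r with
      | zero => simp
      | add t t' h h' => simp only [map_add, h, h', mul_add]; ring
      | tmul e f =>
        rw [Algebra.TensorProduct.tmul_mul_tmul]
        simp only [tensorBr_tmul, P.leibniz, P'.leibniz]
        simp only [tmul_eq_mul, map_mul, map_add]
        ring

theorem tensorBr_jacobi (s t r : A ⊗[k] B) :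
    tensorBr P.br P'.br s (tensorBr P.br P'.br t r) +
      tensorBr P.br P'.br t (tensorBr P.br P'.br r s) +
      tensorBr P.br P'.br r (tensorBr P.br P'.br s t) = 0 := by
  induction s with
  | zero => simp
  | add s s' h h' =>
    simp only [map_add, LinearMap.add_apply]
    linear_combination h + h'
  | tmul a b =>
    induction t with
    | zero => simp
    | add t t' h h' =>
      simp only [map_add, LinearMap.add_apply]
      linear_combination h + h'
    | tmul c d =>
      induction r with
      | zero => simp
      | add t t' h h' =>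
        simp only [map_add, LinearMap.add_apply]
        linear_combination h + h'
      | tmul e f =>
        have j1 := congrArg (Algebra.TensorProduct.includeLeft (R := k) (S := k) (A := A) (B := B))
          (P.jacobi a c e)
        have j2 := congrArg (Algebra.TensorProduct.includeRight (R := k) (A := A) (B := B))
          (P'.jacobi b d f)
        have a1 := congrArg (Algebra.TensorProduct.includeLeft (R := k) (S := k) (A := A) (B := B))
          (P.antisymm a c)
        have a2 := congrArg (Algebra.TensorProduct.includeLeft (R := k) (S := k) (A := A) (B := B))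
          (P.antisymm c e)
        have a3 := congrArg (Algebra.TensorProduct.includeLeft (R := k) (S := k) (A := A) (B := B))
          (P.antisymm a e)
        have b1 := congrArg (Algebra.TensorProduct.includeRight (R := k) (A := A) (B := B))
          (P'.antisymm b d)
        have b2 := congrArg (Algebra.TensorProduct.includeRight (R := k) (A := A) (B := B))
          (P'.antisymm d f)
        have b3 := congrArg (Algebra.TensorProduct.includeRight (R := k) (A := A) (B := B))
          (P'.antisymm b f)
        simp only [map_add, map_neg, map_zero] at j1 j2 a1 a2 a3 b1 b2 b3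
        simp only [tensorBr_tmul, map_add, P.leibniz, P'.leibniz]
        simp only [tmul_eq_mul, map_mul, map_add]
        rw [a1, a2, a3, b1, b2, b3]
        set i := (Algebra.TensorProduct.includeLeft : A →ₐ[k] A ⊗[k] B)
        set j := (Algebra.TensorProduct.includeRight : B →ₐ[k] A ⊗[k] B)
        linear_combination j b * j d * j f * j1 + i a * i c * i e * j2


/-- The Poisson bracket of a tensor product. -/
noncomputable def PoissonBracket.tensor : PoissonBracket k (A ⊗[k] B) where
  br := tensorBr P.br P'.br
  br_self := tensorBr_self P P'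
  jacobi := tensorBr_jacobi P P'
  leibniz := tensorBr_leibniz P P'

@[simp] theorem PoissonBracket.tensor_tmul (a c : A) (b d : B) :
    (P.tensor P').br (a ⊗ₜ b) (c ⊗ₜ d) = P.br a c ⊗ₜ (b * d) + (a * c) ⊗ₜ P'.br b d :=
  tensorBr_tmul _ _ _ _ _ _

end Tensor

section Maps

variable {k A B C D : Type*} [Field k] [CommRing A] [Algebra k A] [CommRing B] [Algebra k B]
  [CommRing C] [Algebra k C] [CommRing D] [Algebra k D]

/-- An algebra map preserving brackets. -/
def IsPoisson (P : PoissonBracket k A) (P' : PoissonBracket k B) (φ : A →ₐ[k] B) : Prop :=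
  ∀ a b, φ (P.br a b) = P'.br (φ a) (φ b)

theorem IsPoisson.comp {P : PoissonBracket k A} {P' : PoissonBracket k B}
    {P'' : PoissonBracket k C} {ψ : B →ₐ[k] C} {φ : A →ₐ[k] B} (hψ : IsPoisson P' P'' ψ)
    (hφ : IsPoisson P P' φ) : IsPoisson P P'' (ψ.comp φ) := fun a b => by
  simp [hφ a b, hψ _ _]

theorem isPoisson_id (P : PoissonBracket k A) : IsPoisson P P (AlgHom.id k A) := fun _ _ => rfl

theorem isPoisson_of_tmul {P : PoissonBracket k A} {P' : PoissonBracket k B}
    {PC : PoissonBracket k C} (Φ : A ⊗[k] B →ₐ[k] C)
    (h : ∀ a b c d, Φ (P.br a c ⊗ₜ (b * d)) + Φ ((a * c) ⊗ₜ P'.br b d) =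
      PC.br (Φ (a ⊗ₜ b)) (Φ (c ⊗ₜ d))) : IsPoisson (P.tensor P') PC Φ := by
  intro s t
  induction s with
  | zero => simp
  | add s s' h h' => simp only [map_add, LinearMap.add_apply, h, h']
  | tmul a b =>
    induction t with
    | zero => simp
    | add t t' h h' => simp only [map_add, h, h']
    | tmul c d => rw [P.tensor_tmul, map_add, h]

theorem isPoisson_map {P : PoissonBracket k A} {P' : PoissonBracket k B}
    {PC : PoissonBracket k C} {PD : PoissonBracket k D} {φ : A →ₐ[k] C} {ψ : B →ₐ[k] D}
    (hφ : IsPoisson P PC φ) (hψ : IsPoisson P' PD ψ) :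
    IsPoisson (P.tensor P') (PC.tensor PD) (Algebra.TensorProduct.map φ ψ) := by
  apply isPoisson_of_tmul
  intro a b c d
  simp [hφ a c, hψ b d]

theorem isPoisson_includeLeft (P : PoissonBracket k A) (P' : PoissonBracket k B) :
    IsPoisson P (P.tensor P')
      (Algebra.TensorProduct.includeLeft : A →ₐ[k] A ⊗[k] B) := by
  intro a b
  simp [P'.br_self]

theorem isPoisson_includeRight (P : PoissonBracket k A) (P' : PoissonBracket k B) :
    IsPoisson P' (P.tensor P')
      (Algebra.TensorProduct.includeRight : B →ₐ[k] A ⊗[k] B) := by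
  intro a b
  simp [P.br_self]

theorem tensor_cross (P : PoissonBracket k A) (P' : PoissonBracket k B) (a : A) (b : B) :
    (P.tensor P').br (a ⊗ₜ 1) (1 ⊗ₜ b) = 0 := by
  simp [P.br_one, P'.one_br]

theorem isPoisson_of_include {P : PoissonBracket k A} {P' : PoissonBracket k B}
    {PC : PoissonBracket k C} (Φ : A ⊗[k] B →ₐ[k] C)
    (h1 : IsPoisson P PC (Φ.comp Algebra.TensorProduct.includeLeft))
    (h2 : IsPoisson P' PC (Φ.comp Algebra.TensorProduct.includeRight))
    (h3 : ∀ a b, PC.br (Φ (a ⊗ₜ 1)) (Φ (1 ⊗ₜ b)) = 0) : IsPoisson (P.tensor P') PC Φ := by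
  apply isPoisson_of_tmul
  intro a b c d
  have e : ∀ (x : A) (y : B), Φ (x ⊗ₜ y) = Φ (x ⊗ₜ 1) * Φ (1 ⊗ₜ y) := by
    intro x y
    rw [← map_mul]; simp
  have g1 := h1 a c
  have g2 := h2 b d
  have m1 : Φ ((a * c) ⊗ₜ 1) = Φ (a ⊗ₜ 1) * Φ (c ⊗ₜ 1) := by rw [← map_mul]; simp
  have m2 : Φ (1 ⊗ₜ (b * d)) = Φ (1 ⊗ₜ b) * Φ (1 ⊗ₜ d) := by rw [← map_mul]; simp
  simp only [AlgHom.comp_apply, Algebra.TensorProduct.includeLeft_apply,
    Algebra.TensorProduct.includeRight_apply] at g1 g2
  rw [e (P.br a c), e (a * c), e a b, e c d, g1, g2, m1, m2, PC.leibniz, PC.leibniz_left,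
    PC.leibniz_left, h3 a d, PC.antisymm (Φ (1 ⊗ₜ b)) (Φ (c ⊗ₜ 1)), h3 c b]
  ring

theorem isPoisson_assoc (P : PoissonBracket k A) (P' : PoissonBracket k B)
    (P'' : PoissonBracket k C) :
    IsPoisson ((P.tensor P').tensor P'') (P.tensor (P'.tensor P''))
      (Algebra.TensorProduct.assoc k k k A B C).toAlgHom := by
  apply isPoisson_of_include
  · apply isPoisson_of_include
    · exact isPoisson_includeLeft P (P'.tensor P'')
    · have := (isPoisson_includeRight P (P'.tensor P'')).comp (isPoisson_includeLeft P' P'')
      exact this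
    · intro a b
      exact tensor_cross P (P'.tensor P'') a (b ⊗ₜ 1)
  · have := (isPoisson_includeRight P (P'.tensor P'')).comp (isPoisson_includeRight P' P'')
    exact this
  · intro s c
    induction s with
    | zero => simp
    | add s s' h h' => rw [add_tmul, map_add, map_add, LinearMap.add_apply, h, h', add_zero]
    | tmul a b =>
      change (P.tensor (P'.tensor P'')).br (a ⊗ₜ (b ⊗ₜ 1)) (1 ⊗ₜ (1 ⊗ₜ c)) = 0
      rw [PoissonBracket.tensor_tmul, P.br_one, tensor_cross]; simp

end Maps

end Pool.Agent.PoissonHopf
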